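import Pool.Agent.Lib.Skein.Defs

set_option autoImplicit false

/-!
# Nec : the necessary conditions

The relations between the classes of `T₁` and `T₂`: the curl relation (twist region closed by a cup) and the
relation from the 2-braid closures `w k` of `σ^k` (the Hopf links `w 2` and `w (-2)` are isotopic).
-/

noncomputable section

namespace Pool.Agent.Lib.Skein

variable {R : Type*} [CommRing R]

/-- a cup -/
abbrev cU (i : ℕ) : Kind × ℕ := (.cup, i)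
/-- a cap -/
abbrev cN (i : ℕ) : Kind × ℕ := (.cap, i)
/-- a right-handed half twist -/
abbrev cX (i : ℕ) : Kind × ℕ := (.cr true, i)
/-- a left-handed half twist -/
abbrev cY (i : ℕ) : Kind × ℕ := (.cr false, i)

theorem hopf {M : Type*} [AddCommGroup M] [Module R M] (a : R) (q : Word → M)
    (hm : ∀ r s : Word, Move r s → ∀ u v : Word, Closed (u ++ r ++ v) → Closed (u ++ s ++ v) →
      q (u ++ r ++ v) = q (u ++ s ++ v))
    (hc : ∀ (u v : Word) (i : ℕ), Closed (u ++ [cU i] ++ v) →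
      q (u ++ [cU i, cY i] ++ v) = a • q (u ++ [cU i] ++ v)) :
    q [cU 0, cU 1, cX 0, cX 0, cN 1, cN 0] = q [cU 0, cU 1, cY 0, cY 0, cN 1, cN 0] := by
  have e1 : q [cU 0, cU 1, cX 0, cX 0, cN 1, cN 0] = q [cU 0, cU 0, cY 1, cX 0, cN 1, cN 0] :=
    (hm _ _ (Move.slideCup 0 false) [cU 0] [cX 0, cN 1, cN 0] rfl rfl).symm
  have e2 : q [cU 0, cU 0, cY 1, cX 0, cN 1, cN 0] = q [cU 0, cU 0, cY 1, cY 1, cN 0, cN 0] :=
    hm _ _ (Move.slideCap 0 true) [cU 0, cU 0, cY 1] [cN 0] rfl rfl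
  -- the curl on the cup
  have e3 : a • q [cU 0, cU 0, cX 0, cY 1, cY 1, cN 0, cN 0] = q [cU 0, cU 0, cY 1, cY 1, cN 0, cN 0] := by
    have h1 := hc [cU 0] [cX 0, cY 1, cY 1, cN 0, cN 0] 0 rfl
    have h2 := hm _ _ (Move.r2 0 false) [cU 0, cU 0] [cY 1, cY 1, cN 0, cN 0] rfl rfl
    exact h1.symm.trans h2
  -- the curl on the cap
  have e4 : q [cU 0, cU 0, cX 0, cY 1, cY 1, cY 0, cN 0, cN 0] = a • q [cU 0, cU 0, cX 0, cY 1, cY 1, cN 0, cN 0] := by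
    have h1 : q [cU 0, cU 0, cX 0, cY 1, cY 1, cU 1, cN 2, cY 0, cN 0, cN 0] =
        q [cU 0, cU 0, cX 0, cY 1, cY 1, cY 0, cN 0, cN 0] :=
      hm _ _ (Move.zag 1) [cU 0, cU 0, cX 0, cY 1, cY 1] [cY 0, cN 0, cN 0] rfl rfl
    have h2 : q [cU 0, cU 0, cX 0, cY 1, cY 1, cU 1, cN 2, cY 0, cN 0, cN 0] =
        q [cU 0, cU 0, cX 0, cY 1, cY 1, cU 1, cY 0, cN 2, cN 0, cN 0] :=
      hm _ _ (Move.far (.cr false) .cap 0 0) [cU 0, cU 0, cX 0, cY 1, cY 1, cU 1] [cN 0, cN 0] rfl rfl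
    have h3 : q [cU 0, cU 0, cX 0, cY 1, cY 1, cU 1, cY 0, cN 2, cN 0, cN 0] =
        q [cU 0, cU 0, cX 0, cY 1, cY 1, cU 1, cY 0, cN 0, cN 0, cN 0] :=
      hm _ _ (Move.far .cap .cap 0 0) [cU 0, cU 0, cX 0, cY 1, cY 1, cU 1, cY 0] [cN 0] rfl rfl
    have h4 : q [cU 0, cU 0, cX 0, cY 1, cY 1, cU 0, cX 1, cN 0, cN 0, cN 0] =
        q [cU 0, cU 0, cX 0, cY 1, cY 1, cU 1, cY 0, cN 0, cN 0, cN 0] :=
      hm _ _ (Move.slideCup 0 true) [cU 0, cU 0, cX 0, cY 1, cY 1] [cN 0, cN 0, cN 0] rfl rfl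
    have h5 : q [cU 0, cU 0, cX 0, cY 1, cY 1, cU 0, cY 0, cN 1, cN 0, cN 0] =
        q [cU 0, cU 0, cX 0, cY 1, cY 1, cU 0, cX 1, cN 0, cN 0, cN 0] :=
      hm _ _ (Move.slideCap 0 false) [cU 0, cU 0, cX 0, cY 1, cY 1, cU 0] [cN 0, cN 0] rfl rfl
    have h6 : q [cU 0, cU 0, cX 0, cY 1, cY 1, cU 0, cY 0, cN 1, cN 0, cN 0] =
        a • q [cU 0, cU 0, cX 0, cY 1, cY 1, cU 0, cN 1, cN 0, cN 0] :=
      hc [cU 0, cU 0, cX 0, cY 1, cY 1] [cN 1, cN 0, cN 0] 0 rfl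
    have h7 : q [cU 0, cU 0, cX 0, cY 1, cY 1, cU 0, cN 1, cN 0, cN 0] =
        q [cU 0, cU 0, cX 0, cY 1, cY 1, cN 0, cN 0] :=
      hm _ _ (Move.zag 0) [cU 0, cU 0, cX 0, cY 1, cY 1] [cN 0, cN 0] rfl rfl
    rw [← h1, h2, h3, ← h4, ← h5, h6, h7]
  -- the braid relations
  have e5 : q [cU 0, cU 0, cX 0, cY 1, cY 1, cY 0, cN 0, cN 0] =
      q [cU 0, cU 0, cY 1, cY 0, cY 0, cX 1, cN 0, cN 0] := by
    have h1 : q [cU 0, cU 0, cX 0, cY 1, cY 0, cX 0, cY 1, cY 0, cN 0, cN 0] =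
        q [cU 0, cU 0, cX 0, cY 1, cY 1, cY 0, cN 0, cN 0] :=
      hm _ _ (Move.r2 0 false) [cU 0, cU 0, cX 0, cY 1] [cY 1, cY 0, cN 0, cN 0] rfl rfl
    -- `cX 0 cY 1 cY 0 = cY 1 cY 0 cX 1`
    have hb : ∀ u v : Word, Closed (u ++ [cX 0, cY 1, cY 0] ++ v) →
        Closed (u ++ [cX 0, cY 1, cY 0, cY 1, cX 1] ++ v) →
        Closed (u ++ [cX 0, cY 0, cY 1, cY 0, cX 1] ++ v) → Closed (u ++ [cY 1, cY 0, cX 1] ++ v) →
        q (u ++ [cX 0, cY 1, cY 0] ++ v) = q (u ++ [cY 1, cY 0, cX 1] ++ v) := by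
      intro u v c1 c2 c3 c4
      have g1 := hm _ _ (Move.r2 1 false) (u ++ [cX 0, cY 1, cY 0]) v
        (by simpa using c2) (by simpa using c1)
      have g2 := hm _ _ (Move.r3 0 false) (u ++ [cX 0]) ([cX 1] ++ v)
        (by simpa using c3) (by simpa using c2)
      have g3 := hm _ _ (Move.r2 0 true) u ([cY 1, cY 0, cX 1] ++ v)
        (by simpa using c3) (by simpa using c4)
      simp only [List.append_assoc, List.cons_append, List.nil_append] at g1 g2 g3 ⊢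
      exact g1.symm.trans (g2.symm.trans g3)
    have h2 := hb [cU 0, cU 0] [cX 0, cY 1, cY 0, cN 0, cN 0] rfl rfl rfl rfl
    have h3 := hb [cU 0, cU 0, cY 1, cY 0, cX 1] [cN 0, cN 0] rfl rfl rfl rfl
    have h4 : q [cU 0, cU 0, cY 1, cY 0, cX 1, cY 1, cY 0, cX 1, cN 0, cN 0] =
        q [cU 0, cU 0, cY 1, cY 0, cY 0, cX 1, cN 0, cN 0] :=
      hm _ _ (Move.r2 1 true) [cU 0, cU 0, cY 1, cY 0] [cY 0, cX 1, cN 0, cN 0] rfl rfl
    exact h1.symm.trans (h2.trans (h3.trans h4))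
  have e6 : q [cU 0, cU 0, cY 1, cY 0, cY 0, cX 1, cN 0, cN 0] =
      q [cU 0, cU 1, cX 0, cY 0, cY 0, cX 1, cN 0, cN 0] :=
    hm _ _ (Move.slideCup 0 false) [cU 0] [cY 0, cY 0, cX 1, cN 0, cN 0] rfl rfl
  have e7 : q [cU 0, cU 1, cX 0, cY 0, cY 0, cX 1, cN 0, cN 0] =
      q [cU 0, cU 1, cX 0, cY 0, cY 0, cY 0, cN 1, cN 0] :=
    (hm _ _ (Move.slideCap 0 false) [cU 0, cU 1, cX 0, cY 0, cY 0] [cN 0] rfl rfl).symm
  have e8 : q [cU 0, cU 1, cX 0, cY 0, cY 0, cY 0, cN 1, cN 0] = q [cU 0, cU 1, cY 0, cY 0, cN 1, cN 0] :=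
    hm _ _ (Move.r2 0 true) [cU 0, cU 1] [cY 0, cY 0, cN 1, cN 0] rfl rfl
  rw [e1, e2, ← e3, ← e4, e5, e6, e7, e8]

theorem nec_alg {M : Type*} [AddCommGroup M] [Module R M] (a b0 b1 b2 b3 binf : R) (q : Word → M)
    (hm : ∀ r s : Word, Move r s → ∀ u v : Word, Closed (u ++ r ++ v) → Closed (u ++ s ++ v) →
      q (u ++ r ++ v) = q (u ++ s ++ v))
    (hs : ∀ (u v : Word) (i : ℕ), Closed (u ++ [cX i] ++ v) →
      b0 • q (u ++ v) + b1 • q (u ++ [cX i] ++ v) + b2 • q (u ++ [cX i, cX i] ++ v) +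
      b3 • q (u ++ [cX i, cX i, cX i] ++ v) + binf • q (u ++ [cN i, cU i] ++ v) = 0)
    (hc : ∀ (u v : Word) (i : ℕ), Closed (u ++ [cU i] ++ v) →
      q (u ++ [cU i, cY i] ++ v) = a • q (u ++ [cU i] ++ v)) :
    (a ^ 3 * b0 + a ^ 2 * b1 + a * b2 + b3) • q (triv 1) + (a ^ 3 * binf) • q (triv 2) = 0 ∧
    (binf = 0 → (b0 ^ 2 + a ^ 2 * b0 * b2 - a ^ 2 * b3 ^ 2 - b1 * b3) • q (triv 1) +
      (a * (b0 * b1 - b2 * b3)) • q (triv 2) = 0) := by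
  have hc' : ∀ (u v : Word) (i : ℕ), Closed (u ++ [cU i] ++ v) →
      Closed (u ++ [cU i] ++ (cX i :: v)) → Closed (u ++ [cU i] ++ (cY i :: cX i :: v)) →
      a • q (u ++ [cU i] ++ (cX i :: v)) = q (u ++ [cU i] ++ v) := by
    intro u v i h1 h2 h3
    have g1 := hc u (cX i :: v) i h2
    have g2 := hm _ _ (Move.r2 i false) (u ++ [cU i]) v (by simpa using h3) (by simpa using h1)
    simp only [List.append_assoc, List.cons_append, List.nil_append] at g1 g2 ⊢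
    exact g1.symm.trans g2
  have t1 : triv 1 = [cU 0, cN 0] := rfl
  have t2 : triv 2 = [cU 0, cN 0, cU 0, cN 0] := rfl
  rw [t1, t2]
  refine ⟨?_, ?_⟩
  · have s1 := hs [cU 0] [cN 0] 0 rfl
    have k1 : a • q [cU 0, cX 0, cN 0] = q [cU 0, cN 0] := hc' [] [cN 0] 0 rfl rfl rfl
    have k2 : a • q [cU 0, cX 0, cX 0, cN 0] = q [cU 0, cX 0, cN 0] := hc' [] [cX 0, cN 0] 0 rfl rfl rfl
    have k3 : a • q [cU 0, cX 0, cX 0, cX 0, cN 0] = q [cU 0, cX 0, cX 0, cN 0] :=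
      hc' [] [cX 0, cX 0, cN 0] 0 rfl rfl rfl
    have s2 : b0 • q [cU 0, cN 0] + b1 • q [cU 0, cX 0, cN 0] + b2 • q [cU 0, cX 0, cX 0, cN 0] +
      b3 • q [cU 0, cX 0, cX 0, cX 0, cN 0] + binf • q [cU 0, cN 0, cU 0, cN 0] = 0 := s1
    have k1' : a ^ 3 • q [cU 0, cX 0, cN 0] = a ^ 2 • q [cU 0, cN 0] := by
      rw [← k1, smul_smul]; congr 1; ring
    have k2' : a ^ 3 • q [cU 0, cX 0, cX 0, cN 0] = a • q [cU 0, cN 0] := by
      rw [← k1, ← k2, smul_smul, smul_smul]; congr 1; ring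
    have k3' : a ^ 3 • q [cU 0, cX 0, cX 0, cX 0, cN 0] = q [cU 0, cN 0] := by
      rw [← k1, ← k2, ← k3, smul_smul, smul_smul]; congr 1; ring
    have s3 := congrArg (fun z => a ^ 3 • z) s2
    simp only [smul_add, smul_zero, smul_comm (a ^ 3)] at s3
    rw [k1', k2', k3'] at s3
    rw [← s3]
    module
  · intro hb
    -- the 2-braid closures
    have w0 : q [cU 0, cU 1, cN 1, cN 0] = q [cU 0, cN 0, cU 0, cN 0] := by
      have h1 : q [cU 0, cU 1, cX 0, cY 0, cN 1, cN 0] = q [cU 0, cU 1, cN 1, cN 0] :=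
        hm _ _ (Move.r2 0 true) [cU 0, cU 1] [cN 1, cN 0] rfl rfl
      have h2 : q [cU 0, cU 0, cY 1, cY 0, cN 1, cN 0] = q [cU 0, cU 1, cX 0, cY 0, cN 1, cN 0] :=
        hm _ _ (Move.slideCup 0 false) [cU 0] [cY 0, cN 1, cN 0] rfl rfl
      have h3 : q [cU 0, cU 0, cY 1, cY 0, cN 1, cN 0] = q [cU 0, cU 0, cY 1, cX 1, cN 0, cN 0] :=
        hm _ _ (Move.slideCap 0 false) [cU 0, cU 0, cY 1] [cN 0] rfl rfl
      have h4 : q [cU 0, cU 0, cY 1, cX 1, cN 0, cN 0] = q [cU 0, cU 0, cN 0, cN 0] :=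
        hm _ _ (Move.r2 1 false) [cU 0, cU 0] [cN 0, cN 0] rfl rfl
      have h5 : q [cU 0, cU 0, cN 0, cN 0] = q [cU 0, cU 2, cN 0, cN 0] :=
        hm _ _ (Move.far .cup .cup 0 0) [] [cN 0, cN 0] rfl rfl
      have h6 : q [cU 0, cU 2, cN 0, cN 0] = q [cU 0, cN 0, cU 0, cN 0] :=
        hm _ _ (Move.far .cap .cup 0 0) [cU 0] [cN 0] rfl rfl
      rw [← h1, ← h2, h3, h4, h5, h6]
    have w1 : q [cU 0, cU 1, cX 0, cN 1, cN 0] = a • q [cU 0, cN 0] := by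
      have h1 : q [cU 0, cU 1, cX 0, cN 1, cN 0] = q [cU 0, cU 1, cY 1, cN 0, cN 0] :=
        hm _ _ (Move.slideCap 0 true) [cU 0, cU 1] [cN 0] rfl rfl
      have h2 : q [cU 0, cU 1, cY 1, cN 0, cN 0] = a • q [cU 0, cU 1, cN 0, cN 0] :=
        hc [cU 0] [cN 0, cN 0] 1 rfl
      have h3 : q [cU 0, cU 1, cN 0, cN 0] = q [cU 0, cN 0] :=
        hm _ _ (Move.zig 0) [cU 0] [cN 0] rfl rfl
      rw [h1, h2, h3]
    have wm1 : a • q [cU 0, cU 1, cY 0, cN 1, cN 0] = q [cU 0, cN 0] := by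
      have h1 : q [cU 0, cU 1, cY 0, cN 1, cN 0] = q [cU 0, cU 1, cX 1, cN 0, cN 0] :=
        hm _ _ (Move.slideCap 0 false) [cU 0, cU 1] [cN 0] rfl rfl
      have h2 : a • q [cU 0, cU 1, cX 1, cN 0, cN 0] = q [cU 0, cU 1, cN 0, cN 0] :=
        hc' [cU 0] [cN 0, cN 0] 1 rfl rfl rfl
      have h3 : q [cU 0, cU 1, cN 0, cN 0] = q [cU 0, cN 0] :=
        hm _ _ (Move.zig 0) [cU 0] [cN 0] rfl rfl
      rw [h1, h2, h3]
    have hH := hopf a q hm hc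
    -- the skein relations
    have r1 : b0 • q [cU 0, cU 1, cY 0, cN 1, cN 0] + b1 • q [cU 0, cU 1, cN 1, cN 0] +
        b2 • q [cU 0, cU 1, cX 0, cN 1, cN 0] + b3 • q [cU 0, cU 1, cX 0, cX 0, cN 1, cN 0] = 0 := by
      have s1 : b0 • q [cU 0, cU 1, cY 0, cN 1, cN 0] + b1 • q [cU 0, cU 1, cY 0, cX 0, cN 1, cN 0] +
        b2 • q [cU 0, cU 1, cY 0, cX 0, cX 0, cN 1, cN 0] +
        b3 • q [cU 0, cU 1, cY 0, cX 0, cX 0, cX 0, cN 1, cN 0] +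
        binf • q [cU 0, cU 1, cY 0, cN 0, cU 0, cN 1, cN 0] = 0 :=
        hs [cU 0, cU 1, cY 0] [cN 1, cN 0] 0 rfl
      have h1 : q [cU 0, cU 1, cY 0, cX 0, cN 1, cN 0] = q [cU 0, cU 1, cN 1, cN 0] :=
        hm _ _ (Move.r2 0 false) [cU 0, cU 1] [cN 1, cN 0] rfl rfl
      have h2 : q [cU 0, cU 1, cY 0, cX 0, cX 0, cN 1, cN 0] = q [cU 0, cU 1, cX 0, cN 1, cN 0] :=
        hm _ _ (Move.r2 0 false) [cU 0, cU 1] [cX 0, cN 1, cN 0] rfl rfl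
      have h3 : q [cU 0, cU 1, cY 0, cX 0, cX 0, cX 0, cN 1, cN 0] = q [cU 0, cU 1, cX 0, cX 0, cN 1, cN 0] :=
        hm _ _ (Move.r2 0 false) [cU 0, cU 1] [cX 0, cX 0, cN 1, cN 0] rfl rfl
      rw [h1, h2, h3, hb, zero_smul, add_zero] at s1
      exact s1
    have r2 : b0 • q [cU 0, cU 1, cY 0, cY 0, cN 1, cN 0] + b1 • q [cU 0, cU 1, cY 0, cN 1, cN 0] +
        b2 • q [cU 0, cU 1, cN 1, cN 0] + b3 • q [cU 0, cU 1, cX 0, cN 1, cN 0] = 0 := by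
      have s1 : b0 • q [cU 0, cU 1, cY 0, cY 0, cN 1, cN 0] +
        b1 • q [cU 0, cU 1, cY 0, cY 0, cX 0, cN 1, cN 0] +
        b2 • q [cU 0, cU 1, cY 0, cY 0, cX 0, cX 0, cN 1, cN 0] +
        b3 • q [cU 0, cU 1, cY 0, cY 0, cX 0, cX 0, cX 0, cN 1, cN 0] +
        binf • q [cU 0, cU 1, cY 0, cY 0, cN 0, cU 0, cN 1, cN 0] = 0 :=
        hs [cU 0, cU 1, cY 0, cY 0] [cN 1, cN 0] 0 rfl
      have h1 : q [cU 0, cU 1, cY 0, cY 0, cX 0, cN 1, cN 0] = q [cU 0, cU 1, cY 0, cN 1, cN 0] :=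
        hm _ _ (Move.r2 0 false) [cU 0, cU 1, cY 0] [cN 1, cN 0] rfl rfl
      have h2 : q [cU 0, cU 1, cY 0, cY 0, cX 0, cX 0, cN 1, cN 0] = q [cU 0, cU 1, cN 1, cN 0] := by
        have g1 : q [cU 0, cU 1, cY 0, cY 0, cX 0, cX 0, cN 1, cN 0] =
            q [cU 0, cU 1, cY 0, cX 0, cN 1, cN 0] :=
          hm _ _ (Move.r2 0 false) [cU 0, cU 1, cY 0] [cX 0, cN 1, cN 0] rfl rfl
        have g2 : q [cU 0, cU 1, cY 0, cX 0, cN 1, cN 0] = q [cU 0, cU 1, cN 1, cN 0] :=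
          hm _ _ (Move.r2 0 false) [cU 0, cU 1] [cN 1, cN 0] rfl rfl
        rw [g1, g2]
      have h3 : q [cU 0, cU 1, cY 0, cY 0, cX 0, cX 0, cX 0, cN 1, cN 0] =
          q [cU 0, cU 1, cX 0, cN 1, cN 0] := by
        have g1 : q [cU 0, cU 1, cY 0, cY 0, cX 0, cX 0, cX 0, cN 1, cN 0] =
            q [cU 0, cU 1, cY 0, cX 0, cX 0, cN 1, cN 0] :=
          hm _ _ (Move.r2 0 false) [cU 0, cU 1, cY 0] [cX 0, cX 0, cN 1, cN 0] rfl rfl
        have g2 : q [cU 0, cU 1, cY 0, cX 0, cX 0, cN 1, cN 0] = q [cU 0, cU 1, cX 0, cN 1, cN 0] :=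
          hm _ _ (Move.r2 0 false) [cU 0, cU 1] [cX 0, cN 1, cN 0] rfl rfl
        rw [g1, g2]
      rw [h1, h2, h3, hb, zero_smul, add_zero] at s1
      exact s1
    rw [hH] at r1
    rw [w0, w1] at r1 r2
    generalize q [cU 0, cN 0, cU 0, cN 0] = T2 at *
    generalize q [cU 0, cU 1, cY 0, cY 0, cN 1, cN 0] = H at *
    generalize q [cU 0, cU 1, cY 0, cN 1, cN 0] = K at *
    generalize q [cU 0, cN 0] = T1 at *
    have f1 : (a * b0) • (b0 • K + b1 • T2 + b2 • a • T1 + b3 • H) -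
        (a * b3) • (b0 • H + b1 • K + b2 • T2 + b3 • a • T1) = 0 := by
      rw [r1, r2]; simp
    have f2 : (a * b0) • (b0 • K + b1 • T2 + b2 • a • T1 + b3 • H) -
        (a * b3) • (b0 • H + b1 • K + b2 • T2 + b3 • a • T1) =
        (b0 ^ 2 - b1 * b3) • (a • K) + (a ^ 2 * b0 * b2 - a ^ 2 * b3 ^ 2) • T1 +
          (a * (b0 * b1 - b2 * b3)) • T2 := by
      module
    rw [f2, wm1] at f1
    rw [← f1]
    module

theorem nec (a b0 b1 b2 b3 binf : R) (ha : IsUnit a) (h : Indep R a b0 b1 b2 b3 binf) :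
    binf = 0 ∧ a ^ 3 * b0 + a ^ 2 * b1 + a * b2 + b3 = 0 ∧ b0 * b1 = b2 * b3 ∧
      b0 ^ 2 + a ^ 2 * b0 * b2 = a ^ 2 * b3 ^ 2 + b1 * b3 := by
  classical
  obtain ⟨q, hq⟩ : ∃ q : Word → (FLink →₀ R) ⧸ relMod R a b0 b1 b2 b3 binf,
    q = fun w => Submodule.Quotient.mk (cls R w) := ⟨_, rfl⟩
  have hm : ∀ r s : Word, Move r s → ∀ u v : Word, Closed (u ++ r ++ v) → Closed (u ++ s ++ v) →
      q (u ++ r ++ v) = q (u ++ s ++ v) := by
    intro r s hrs u v h1 h2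
    have h3 : cls R (u ++ r ++ v) = cls R (u ++ s ++ v) := by
      unfold cls
      rw [dif_pos h1, dif_pos h2]
      congr 1
      exact Quot.sound ⟨u, v, r, s, hrs, rfl, rfl⟩
    rw [hq]
    simp only [h3]
  have hs : ∀ (u v : Word) (i : ℕ), Closed (u ++ [cX i] ++ v) →
      b0 • q (u ++ v) + b1 • q (u ++ [cX i] ++ v) + b2 • q (u ++ [cX i, cX i] ++ v) +
      b3 • q (u ++ [cX i, cX i, cX i] ++ v) + binf • q (u ++ [cN i, cU i] ++ v) = 0 := by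
    intro u v i h1
    rw [hq]
    simp only [← Submodule.Quotient.mk_smul, ← Submodule.Quotient.mk_add]
    rw [Submodule.Quotient.mk_eq_zero]
    exact Submodule.subset_span (Or.inl ⟨u, v, i, h1, rfl⟩)
  have hc : ∀ (u v : Word) (i : ℕ), Closed (u ++ [cU i] ++ v) →
      q (u ++ [cU i, cY i] ++ v) = a • q (u ++ [cU i] ++ v) := by
    intro u v i h1
    rw [hq]
    simp only [← Submodule.Quotient.mk_smul]
    rw [Submodule.Quotient.eq]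
    exact Submodule.subset_span (Or.inr ⟨u, v, i, h1, rfl⟩)
  obtain ⟨h1, h2⟩ := nec_alg a b0 b1 b2 b3 binf q hm hs hc
  have hind : ∀ x y : R, x • q (triv 1) + y • q (triv 2) = 0 → x = 0 ∧ y = 0 := by
    intro x y hxy
    have h3 : LinearIndependent R ((fun n : ℕ => q (triv n)) ∘ (fun i : Fin 2 => (i : ℕ) + 1)) := by
      apply LinearIndependent.comp
      · rw [hq]
        exact h
      · intro i j hij
        apply Fin.ext
        simpa using hij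
    have h4 := (Fintype.linearIndependent_iff.1 h3) ![x, y] (by
      simp only [Fin.sum_univ_two, Function.comp]
      simpa using hxy)
    exact ⟨h4 0, h4 1⟩
  obtain ⟨h3, h4⟩ := hind _ _ h1
  have h5 : binf = 0 := by
    have h6 : IsUnit (a ^ 3) := ha.pow 3
    exact (h6.mul_right_eq_zero).1 h4
  obtain ⟨h6, h7⟩ := hind _ _ (h2 h5)
  have h8 : b0 * b1 - b2 * b3 = 0 := (ha.mul_right_eq_zero).1 h7
  refine ⟨h5, h3, sub_eq_zero.1 h8, ?_⟩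
  linear_combination h6

end Pool.Agent.Lib.Skein
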