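import Pool.Agent.Lib.Skein.Glue
import Pool.Agent.Lib.Skein.Nec

set_option autoImplicit false

/-!
# Cla : the complete answer for rings with `r³ = r` (about 60 lines)

Units satisfy `u² = 1`. Let `s = b₀ b₃`, `z = b₁ b₃`, `q = 1 + a s`. The second and third condition give `b₂ b₃ = s z` and
`q (1 + z) = 0` (`a b₀ + b₁ + a b₂ + b₃ = 0` times `b₃`; `a³ = a`). `q² = 2 q` (`(a s)² = 1`), so with `q³ = q`: `3 q = 0`, `q² = -q`. Apply `glue` with
`e = q²`, `c₃ = b₃`: `e (b₀ + a² b₂) = 0`, `e (b₁ + a² b₃) = 0` since `q (1 + z) = 0`; `(1 - q²) q = 0` gives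
`(1 - e)(b₀ + a b₃) = 0` (`b₀ + a b₃ = a b₃ q`... up to `a² = b₃² = 1`) and `(1 - e)(b₂ + a b₁) = 0`; `b₁³ = b₁ = b₁ b₃²`.
-/

noncomputable section

namespace Pool.Agent.Lib.Skein

variable {R : Type*} [CommRing R]

private theorem cla_unit (hR : ∀ r : R, r ^ 3 = r) (u : R) (hu : IsUnit u) : u * u = 1 := by
  apply hu.mul_left_cancel
  have h := hR u
  calc u * (u * u) = u ^ 3 := by ring
    _ = u := h
    _ = u * 1 := by ring

theorem cla (hR : ∀ r : R, r ^ 3 = r) (a b0 b1 b2 b3 binf : R) (ha : IsUnit a) (hb0 : IsUnit b0)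
    (hb3 : IsUnit b3) :
    Indep R a b0 b1 b2 b3 binf ↔
      binf = 0 ∧ a ^ 3 * b0 + a ^ 2 * b1 + a * b2 + b3 = 0 ∧ b0 * b1 = b2 * b3 := by
  constructor
  · intro h
    obtain ⟨h1, h2, h3, _⟩ := nec a b0 b1 b2 b3 binf ha h
    exact ⟨h1, h2, h3⟩
  · rintro ⟨h1, h2, h3⟩
    subst h1
    have ha2 : a * a = 1 := cla_unit hR a ha
    have h02 : b0 * b0 = 1 := cla_unit hR b0 hb0
    have h32 : b3 * b3 = 1 := cla_unit hR b3 hb3
    have hb2 : b2 = b0 * b1 * b3 := by
      calc b2 = b2 * (b3 * b3) := by rw [h32, mul_one]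
        _ = b2 * b3 * b3 := by ring
        _ = b0 * b1 * b3 := by rw [← h3]
    have h2' : a * b0 + b1 + a * b2 + b3 = 0 := by
      calc a * b0 + b1 + a * b2 + b3 = a * (a * a) * b0 + (a * a) * b1 + a * b2 + b3 := by
            rw [ha2]; ring
        _ = a ^ 3 * b0 + a ^ 2 * b1 + a * b2 + b3 := by ring
        _ = 0 := h2
    obtain ⟨q, hq⟩ : ∃ q : R, q = 1 + a * b0 * b3 := ⟨_, rfl⟩
    have hq3 : q ^ 3 = q := hR q
    have hqz : q * (1 + b1 * b3) = 0 := by
      rw [hq]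
      have : (1 + a * b0 * b3) * (1 + b1 * b3) = b3 * (a * b0 + b1 + a * (b0 * b1 * b3) + b3) := by
        linear_combination (-1 : R) * h32
      rw [this, ← hb2, h2', mul_zero]
    refine glue a b0 b1 b2 b3 b3 (q ^ 2) ?_ h32 ?_ ?_ ?_ ?_ ?_
    · linear_combination (a ^ 2 + 1) * ha2
    · rw [hb2]
      linear_combination (q * b0) * hqz + (q ^ 2 * b0 * b1 * b3) * ha2
    · linear_combination (q * b3) * hqz - (q ^ 2 * b1) * h32 + (q ^ 2 * b3) * ha2
    · have h5 : b0 + a * b3 = a * b3 * q := by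
        rw [hq]
        linear_combination (-(b0 * b3 * b3)) * ha2 - b0 * h32
      rw [h5]
      linear_combination (-(a * b3)) * hq3
    · have h5 : b2 + a * b1 = a * b1 * q := by
        rw [hq, hb2]
        linear_combination (-(b0 * b1 * b3)) * ha2
      rw [h5]
      linear_combination (-(a * b1)) * hq3
    · have h5 := hR b1
      linear_combination (1 - q ^ 2) * h5 - (1 - q ^ 2) * b1 * h32

end Pool.Agent.Lib.Skein
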