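import Mathlib

set_option autoImplicit false

/-!
# Framed unoriented links as closed tangle words, and the (4,∞) skein module

A framed unoriented link in `S³` is given by a Morse diagram with blackboard framing, read from the
bottom to the top as a word of elementary tangles; two diagrams are isotopic as framed links iff
they are related by the moves of `Move` (zigzag, Reidemeister II and III, a strand sliding past a
cup or a cap, the framed Reidemeister I move, and the exchange of distant pieces).
-/

noncomputable section

namespace Pool.Agent.Lib.Skein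

/-- The elementary tangles: a cup (local minimum), a cap (local maximum), and a crossing of two
adjacent vertical strands: `cr true` is the right-handed half twist (the strand going from the lower
left to the upper right is over), `cr false` the left-handed one. -/
inductive Kind
  | cup
  | cap
  | cr (s : Bool)

/-- number of strands entering from below -/
def Kind.inn : Kind → ℕ
  | .cup => 0
  | .cap => 2
  | .cr _ => 2

/-- number of strands leaving at the top -/
def Kind.out : Kind → ℕ
  | .cup => 2
  | .cap => 0
  | .cr _ => 2

/-- A word of layers, read from the bottom to the top: `(k, i)` is the elementary tangle `k` with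
`i` vertical strands on its left (and any number of vertical strands on its right). -/
abbrev Word := List (Kind × ℕ)

/-- number of strands at the top of a word which starts with `n` strands (`none` if the word is not
a diagram on `n` strands) -/
def run : Word → ℕ → Option ℕ
  | [], n => some n
  | (k, i) :: w, n => if i + k.inn ≤ n then run w (n - k.inn + k.out) else none

/-- the word is a link diagram: it starts and ends with no strands -/
def Closed (w : Word) : Prop := run w 0 = some 0

/-- link diagrams -/
def Diagram := {w : Word // Closed w}

/-- The local moves of framed isotopy. -/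
inductive Move : Word → Word → Prop
  | zig (i : ℕ) : Move [(.cup, i + 1), (.cap, i)] []
  | zag (i : ℕ) : Move [(.cup, i), (.cap, i + 1)] []
  | r2 (i : ℕ) (s : Bool) : Move [(.cr s, i), (.cr (!s), i)] []
  | r3 (i : ℕ) (s : Bool) : Move [(.cr s, i), (.cr s, i + 1), (.cr s, i)]
      [(.cr s, i + 1), (.cr s, i), (.cr s, i + 1)]
  | slideCup (i : ℕ) (s : Bool) : Move [(.cup, i), (.cr s, i + 1)] [(.cup, i + 1), (.cr (!s), i)]
  | slideCap (i : ℕ) (s : Bool) : Move [(.cr s, i), (.cap, i + 1)] [(.cr (!s), i + 1), (.cap, i)]
  | curl (i : ℕ) (s : Bool) : Move [(.cup, i + 1), (.cr s, i), (.cap, i + 1)]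
      [(.cup, i), (.cr s, i + 1), (.cap, i)]
  | far (f g : Kind) (i j : ℕ) : Move [(g, i + f.inn + j), (f, i)] [(f, i), (g, i + f.out + j)]

/-- one move inside a diagram -/
def Step (D E : Diagram) : Prop :=
  ∃ u v r s : Word, Move r s ∧ D.1 = u ++ r ++ v ∧ E.1 = u ++ s ++ v

/-- isotopy classes of unoriented framed links in `S³` (the equivalence relation generated by
`Step`) -/
def FLink := Quot Step

variable (R : Type*) [CommRing R]

open Classical in
/-- the basis element of the free module on framed links given by a link diagram -/
def cls (w : Word) : FLink →₀ R :=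
  if h : Closed w then Finsupp.single (Quot.mk _ ⟨w, h⟩) 1 else 0

/-- The relations of the (4,∞) skein module: `b₀L₀ + b₁L₁ + b₂L₂ + b₃L₃ + b_∞L_∞` and
`L⁽¹⁾ - aL` (a positive curl put on a cup). -/
def rels (a b0 b1 b2 b3 binf : R) : Set (FLink →₀ R) :=
  {x | ∃ (u v : Word) (i : ℕ), Closed (u ++ [(.cr true, i)] ++ v) ∧
    x = b0 • cls R (u ++ v) + b1 • cls R (u ++ [(.cr true, i)] ++ v) +
      b2 • cls R (u ++ [(.cr true, i), (.cr true, i)] ++ v) +
      b3 • cls R (u ++ [(.cr true, i), (.cr true, i), (.cr true, i)] ++ v) +
      binf • cls R (u ++ [(.cap, i), (.cup, i)] ++ v)} ∪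
  {x | ∃ (u v : Word) (i : ℕ), Closed (u ++ [(.cup, i)] ++ v) ∧
    x = cls R (u ++ [(.cup, i), (.cr false, i)] ++ v) - a • cls R (u ++ [(.cup, i)] ++ v)}

/-- the submodule of relations -/
def relMod (a b0 b1 b2 b3 binf : R) : Submodule R (FLink →₀ R) :=
  Submodule.span R (rels R a b0 b1 b2 b3 binf)

/-- the trivial link of `n` components with zero framing: `n` small circles side by side -/
def triv (n : ℕ) : Word := (List.replicate n [(Kind.cup, 0), (Kind.cap, 0)]).flatten

/-- The classes of the trivial links `T₀, T₁, T₂, …` in the (4,∞) skein module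
`(FLink →₀ R) ⧸ relMod R a b₀ b₁ b₂ b₃ b_∞` are linearly independent over `R`. -/
def Indep (a b0 b1 b2 b3 binf : R) : Prop :=
  LinearIndependent R (fun n : ℕ =>
    (Submodule.Quotient.mk (cls R (triv n)) : (FLink →₀ R) ⧸ relMod R a b0 b1 b2 b3 binf))

/-! ## State sums -/

/-- A colouring model: a finite set `S` of colours, `act o u` the colour of the under strand `u`
after it passes under `o`, and the weight `wt o u` of a crossing. -/
structure Model (X : Type) where
  S : Finset X
  act : X → X → X
  wt : X → X → ℤ
  mem : ∀ o ∈ S, ∀ u ∈ S, act o u ∈ S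
  inv : ∀ o u, act o (act o u) = u
  self : ∀ x, act x x = x
  dist : ∀ x y z, act (act x y) (act x z) = act x (act y z)
  wt_sq : ∀ x y, wt x y * wt x y = 1
  wt_self : ∀ x, wt x x = 1
  wt_right : ∀ x y z, wt x (act y z) = wt x z
  wt_left : ∀ x y z, wt (act x y) z = wt y z

open Classical in
/-- the operator of an elementary tangle at the left end of the list of colours -/
def base {X : Type} (M : Model X) : Kind → (List X → ℤ) → List X → ℤ
  | .cup, F, l => ∑ c ∈ M.S, F (c :: c :: l)
  | .cap, F, x :: y :: l => if x = y then F l else 0
  | .cr true, F, x :: y :: l => M.wt x y * F (M.act x y :: x :: l)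
  | .cr false, F, x :: y :: l => M.wt y x * F (y :: M.act y x :: l)
  | _, _, _ => 0

/-- the operator of a layer -/
def op {X : Type} (M : Model X) (k : Kind) : ℕ → (List X → ℤ) → List X → ℤ
  | 0, F, l => base M k F l
  | _ + 1, _, [] => 0
  | i + 1, F, x :: l => op M k i (fun l' => F (x :: l')) l

/-- the operator of a word -/
def ev {X : Type} (M : Model X) : Word → (List X → ℤ) → List X → ℤ
  | [], F => F
  | (k, i) :: w, F => op M k i (ev M w F)

/-- the indicator of the empty list -/
def top {X : Type} : List X → ℤ
  | [] => 1
  | _ :: _ => 0

/-- the state sum of a diagram -/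
def ZZ {X : Type} (M : Model X) (w : Word) : ℤ := ev M w top []

/-- shift of the positions by `i` -/
def sh (i : ℕ) (w : Word) : Word := w.map (fun p => (p.1, p.2 + i))

end Pool.Agent.Lib.Skein
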