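import Pool.Agent.Lib.Skein.Ops

set_option autoImplicit false

/-!
# Ind : from an invariant to linear independence (about 150 lines)

`closed_cr`: if `u ++ [(cr true, i)] ++ v` is closed then so are `u ++ v`, `u ++ [X, X] ++ v`, `u ++ [X, X, X] ++ v`,
`u ++ [cap, cup] ++ v`; `closed_cup`: if `u ++ [(cup, i)] ++ v` is closed so is `u ++ [(cup, i), (cr false, i)] ++ v`
(`run_append`).
`indep_of`: `V` on diagrams factors through `FLink` (`Quot.lift`, `hmove`), extends to a linear map
`Φ : (FLink →₀ R) →ₗ[R] R[X]` (`Finsupp.linearCombination`), `Φ (cls R w) = V w` for closed `w`, which vanishes on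
`rels` (with `b_∞ = 0`; all words in `rels` are closed) so on `relMod` (`Submodule.span_le`), and gives a linear map on
the quotient (`Submodule.liftQ`) with `T_n ↦ (c X)^n`. These are linearly independent
(`LinearIndependent.of_comp`): the coefficient of `X^n` in `∑ g_n (c X)^n = 0` is `g_n c^n`.
-/

noncomputable section

namespace Pool.Agent.Lib.Skein

open Polynomial

variable {R : Type*} [CommRing R]

theorem run_iff (u r v : Word) : Closed (u ++ r ++ v) ↔
    ∃ n n', run u 0 = some n ∧ run r n = some n' ∧ run v n' = some 0 := by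
  unfold Closed
  rw [run_append, run_append]
  constructor
  · intro h
    cases h1 : run u 0 with
    | none => simp [h1] at h
    | some n =>
      cases h2 : run r n with
      | none => simp [h1, h2] at h
      | some n' => exact ⟨n, n', rfl, h2, by simpa [h1, h2] using h⟩
  · rintro ⟨n, n', h1, h2, h3⟩
    simp [h1, h2, h3]

theorem closed_cr (u v : Word) (i : ℕ) (h : Closed (u ++ [(.cr true, i)] ++ v)) :
    Closed (u ++ v) ∧ Closed (u ++ [(.cr true, i), (.cr true, i)] ++ v) ∧
      Closed (u ++ [(.cr true, i), (.cr true, i), (.cr true, i)] ++ v) ∧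
      Closed (u ++ [(.cap, i), (.cup, i)] ++ v) := by
  obtain ⟨n, n', h1, h2, h3⟩ := (run_iff _ _ _).1 h
  have hi : i + 2 ≤ n := by
    by_contra hc
    simp [run, Kind.inn, hc] at h2
  have hn : n' = n := by
    simp [run, Kind.inn, Kind.out, hi] at h2
    omega
  subst hn
  have e : n' - 2 + 2 = n' := by omega
  refine ⟨?_, ?_, ?_, ?_⟩
  · have := (run_iff u [] v).2 ⟨n', n', h1, rfl, h3⟩
    simpa using this
  · exact (run_iff _ _ _).2 ⟨n', n', h1, by simp [run, Kind.inn, Kind.out, hi, e], h3⟩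
  · exact (run_iff _ _ _).2 ⟨n', n', h1, by simp [run, Kind.inn, Kind.out, hi, e], h3⟩
  · refine (run_iff _ _ _).2 ⟨n', n', h1, ?_, h3⟩
    have e2 : i ≤ n' - 2 := by omega
    simp [run, Kind.inn, Kind.out, hi, e, e2]

theorem closed_cup (u v : Word) (i : ℕ) (h : Closed (u ++ [(.cup, i)] ++ v)) :
    Closed (u ++ [(.cup, i), (.cr false, i)] ++ v) := by
  obtain ⟨n, n', h1, h2, h3⟩ := (run_iff _ _ _).1 h
  have hi : i ≤ n := by
    by_contra hc
    simp [run, Kind.inn, hc] at h2
  have hn : n' = n + 2 := by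
    simp [run, Kind.inn, Kind.out, hi] at h2
    omega
  subst hn
  exact (run_iff _ _ _).2 ⟨n, n + 2, h1, by simp [run, Kind.inn, Kind.out, hi], h3⟩

theorem closed_triv (n : ℕ) : Closed (triv n) := by
  unfold triv
  induction n with
  | zero => rfl
  | succ n ih =>
    rw [List.replicate_succ, List.flatten_cons]
    unfold Closed at ih ⊢
    rw [run_append]
    simpa [run, Kind.inn, Kind.out] using ih

theorem indep_of (a b0 b1 b2 b3 : R) (V : Word → R[X])
    (hmove : ∀ r s : Word, Move r s → ∀ u v : Word, Closed (u ++ r ++ v) → Closed (u ++ s ++ v) →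
      V (u ++ r ++ v) = V (u ++ s ++ v))
    (hskein : ∀ (u v : Word) (i : ℕ), Closed (u ++ [(.cr true, i)] ++ v) →
      b0 • V (u ++ v) + b1 • V (u ++ [(.cr true, i)] ++ v) +
      b2 • V (u ++ [(.cr true, i), (.cr true, i)] ++ v) +
      b3 • V (u ++ [(.cr true, i), (.cr true, i), (.cr true, i)] ++ v) = 0)
    (hcurl : ∀ (u v : Word) (i : ℕ), Closed (u ++ [(.cup, i)] ++ v) →
      V (u ++ [(.cup, i), (.cr false, i)] ++ v) = a • V (u ++ [(.cup, i)] ++ v))
    (c : R) (hc : IsUnit c) (hT : ∀ n, V (triv n) = (C c * X) ^ n) :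
    Indep R a b0 b1 b2 b3 0 := by
  classical
  -- the functional on links
  obtain ⟨W, hW⟩ : ∃ W : FLink → R[X], W = Quot.lift (fun D : Diagram => V D.1) (by
    rintro ⟨D, hD⟩ ⟨E, hE⟩ ⟨u, v, r, s, h, h1, h2⟩
    simp only at h1 h2 ⊢
    subst h1
    subst h2
    exact hmove r s h u v hD hE) := ⟨_, rfl⟩
  obtain ⟨Φ, hΦ⟩ : ∃ Φ : (FLink →₀ R) →ₗ[R] R[X], Φ = Finsupp.linearCombination R W := ⟨_, rfl⟩
  have hcls : ∀ w : Word, Closed w → Φ (cls R w) = V w := by
    intro w hw
    rw [hΦ, cls, dif_pos hw, Finsupp.linearCombination_single, one_smul, hW]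
  have hker : relMod R a b0 b1 b2 b3 0 ≤ LinearMap.ker Φ := by
    unfold relMod
    rw [Submodule.span_le]
    rintro x (⟨u, v, i, h, rfl⟩ | ⟨u, v, i, h, rfl⟩)
    · obtain ⟨h0, h2, h3, -⟩ := closed_cr u v i h
      simp only [SetLike.mem_coe, LinearMap.mem_ker, map_add, map_smul, zero_smul, add_zero]
      rw [hcls _ h0, hcls _ h, hcls _ h2, hcls _ h3]
      exact hskein u v i h
    · simp only [SetLike.mem_coe, LinearMap.mem_ker, map_sub, map_smul]
      rw [hcls _ (closed_cup u v i h), hcls _ h, hcurl u v i h, sub_self]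
  unfold Indep
  apply LinearIndependent.of_comp ((relMod R a b0 b1 b2 b3 0).liftQ Φ hker)
  have h1 : ((relMod R a b0 b1 b2 b3 0).liftQ Φ hker) ∘ (fun n : ℕ =>
      (Submodule.Quotient.mk (cls R (triv n)) : (FLink →₀ R) ⧸ relMod R a b0 b1 b2 b3 0)) =
      fun n => (C c * X : R[X]) ^ n := by
    funext n
    simp only [Function.comp, Submodule.liftQ_apply]
    rw [hcls _ (closed_triv n), hT n]
  rw [h1, linearIndependent_iff']
  intro s g hg i hi
  have h2 := congrArg (fun p : R[X] => p.coeff i) hg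
  simp only [finsetSum_coeff, coeff_zero] at h2
  have h3 : ∀ j ∈ s, (g j • (C c * X : R[X]) ^ j).coeff i = if j = i then g j * c ^ j else 0 := by
    intro j _
    rw [mul_pow, ← C_pow, coeff_smul, coeff_C_mul, coeff_X_pow, smul_eq_mul]
    by_cases hji : j = i
    · subst hji; simp
    · rw [if_neg (fun h => hji h.symm), if_neg hji]; simp
  rw [Finset.sum_congr rfl h3, Finset.sum_ite_eq' s i, if_pos hi] at h2
  exact (hc.pow i).mul_left_eq_zero.1 h2

end Pool.Agent.Lib.Skein
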