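import Pool.Agent.Lib.Skein.Defs

set_option autoImplicit false

/-!
# Tw : the local twist (about 80 lines)

For `y⁴ = 1` the product of the weights `y` (`cr true`), `y³ = y⁻¹` (`cr false`), `(y²)^(i+1)` (cup with `i` strands on its
left), `(y²)^i` (cap) is invariant under all moves: `(y²)² = 1`, so only parities of positions matter; e.g. slideCup:
`(y²)^(i+1) y^ε` and `(y²)^(i+2) y^(-ε)` agree since `y^(2ε) = y²`. (It is `y^(-writhe)` times `(y²)^(components)`.)
`tw_move`: cases on the move, and on the kinds for `far` (positions change by 0 or ±2); `ring_nf` and `y^4 = 1`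
(write `y^4 * z = z`). A curl multiplies by `y³`.
-/

noncomputable section

namespace Pool.Agent.Lib.Skein

variable {R : Type*} [CommRing R]

/-- weight of a layer -/
def twK (y : R) : Kind → ℕ → R
  | .cup, i => (y ^ 2) ^ (i + 1)
  | .cap, i => (y ^ 2) ^ i
  | .cr true, _ => y
  | .cr false, _ => y ^ 3

/-- the local twist of a word -/
def tw (y : R) (w : Word) : R := (w.map (fun p => twK y p.1 p.2)).prod

theorem tw_append (y : R) (u v : Word) : tw y (u ++ v) = tw y u * tw y v := by
  simp [tw, List.map_append, List.prod_append]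

private theorem tw_aux_pow2 (y : R) (hy : y ^ 4 = 1) (n : ℕ) : (y ^ 2) ^ (n + 2) = (y ^ 2) ^ n := by
  calc (y ^ 2) ^ (n + 2) = (y ^ 2) ^ n * y ^ 4 := by ring
    _ = (y ^ 2) ^ n := by rw [hy, mul_one]

private theorem tw_aux_shift (y : R) (hy : y ^ 4 = 1) (g : Kind) (n : ℕ) :
    twK y g (n + 2) = twK y g n := by
  cases g with
  | cup =>
    show (y ^ 2) ^ (n + 2 + 1) = (y ^ 2) ^ (n + 1)
    calc (y ^ 2) ^ (n + 2 + 1) = (y ^ 2) ^ (n + 1 + 2) := by ring
      _ = _ := tw_aux_pow2 y hy (n + 1)
  | cap => exact tw_aux_pow2 y hy n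
  | cr s => cases s <;> rfl

private theorem tw_aux_far (y : R) (hy : y ^ 4 = 1) (f g : Kind) (i j : ℕ) :
    twK y g (i + f.inn + j) = twK y g (i + f.out + j) := by
  cases f with
  | cup =>
    show twK y g (i + 0 + j) = twK y g (i + 2 + j)
    rw [show i + 2 + j = (i + 0 + j) + 2 by omega]
    exact (tw_aux_shift y hy g _).symm
  | cap =>
    show twK y g (i + 2 + j) = twK y g (i + 0 + j)
    rw [show i + 2 + j = (i + 0 + j) + 2 by omega]
    exact tw_aux_shift y hy g _
  | cr s => rfl

private theorem tw_aux_even (y : R) (hy : y ^ 4 = 1) (n : ℕ) : (y ^ 4) ^ n = 1 := by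
  rw [hy, one_pow]

theorem tw_move (y : R) (hy : y ^ 4 = 1) {r s : Word} (h : Move r s) : tw y r = tw y s := by
  cases h with
  | zig i =>
    simp only [tw, List.map_cons, List.map_nil, List.prod_cons, List.prod_nil, twK, mul_one]
    calc (y ^ 2) ^ (i + 1 + 1) * (y ^ 2) ^ i = (y ^ 4) ^ (i + 1) := by ring
      _ = 1 := tw_aux_even y hy _
  | zag i =>
    simp only [tw, List.map_cons, List.map_nil, List.prod_cons, List.prod_nil, twK, mul_one]
    calc (y ^ 2) ^ (i + 1) * (y ^ 2) ^ (i + 1) = (y ^ 4) ^ (i + 1) := by ring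
      _ = 1 := tw_aux_even y hy _
  | r2 i s =>
    cases s
    · simp only [tw, List.map_cons, List.map_nil, List.prod_cons, List.prod_nil, twK, mul_one,
        Bool.not_false]
      calc y ^ 3 * y = y ^ 4 := by ring
        _ = 1 := hy
    · simp only [tw, List.map_cons, List.map_nil, List.prod_cons, List.prod_nil, twK, mul_one,
        Bool.not_true]
      calc y * y ^ 3 = y ^ 4 := by ring
        _ = 1 := hy
  | r3 i s => cases s <;> rfl
  | slideCup i s =>
    cases s
    · simp only [tw, List.map_cons, List.map_nil, List.prod_cons, List.prod_nil, twK, mul_one,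
        Bool.not_false]
      calc (y ^ 2) ^ (i + 1) * y ^ 3 = (y ^ 2) ^ (i + 1 + 1) * y := by ring
        _ = _ := rfl
    · simp only [tw, List.map_cons, List.map_nil, List.prod_cons, List.prod_nil, twK, mul_one,
        Bool.not_true]
      calc (y ^ 2) ^ (i + 1) * y = (y ^ 2) ^ (i + 1) * y * 1 := by ring
        _ = (y ^ 2) ^ (i + 1) * y * y ^ 4 := by rw [hy]
        _ = (y ^ 2) ^ (i + 1 + 1) * y ^ 3 := by ring
  | slideCap i s =>
    cases s
    · simp only [tw, List.map_cons, List.map_nil, List.prod_cons, List.prod_nil, twK, mul_one,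
        Bool.not_false]
      calc y ^ 3 * (y ^ 2) ^ (i + 1) = y * (y ^ 2) ^ i * y ^ 4 := by ring
        _ = y * (y ^ 2) ^ i := by rw [hy, mul_one]
    · simp only [tw, List.map_cons, List.map_nil, List.prod_cons, List.prod_nil, twK, mul_one,
        Bool.not_true]
      ring
  | curl i s =>
    cases s
    · simp only [tw, List.map_cons, List.map_nil, List.prod_cons, List.prod_nil, twK, mul_one]
      calc (y ^ 2) ^ (i + 1 + 1) * (y ^ 3 * (y ^ 2) ^ (i + 1))
          = (y ^ 2) ^ (i + 1) * (y ^ 3 * (y ^ 2) ^ i) * y ^ 4 := by ring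
        _ = _ := by rw [hy, mul_one]
    · simp only [tw, List.map_cons, List.map_nil, List.prod_cons, List.prod_nil, twK, mul_one]
      calc (y ^ 2) ^ (i + 1 + 1) * (y * (y ^ 2) ^ (i + 1))
          = (y ^ 2) ^ (i + 1) * (y * (y ^ 2) ^ i) * y ^ 4 := by ring
        _ = _ := by rw [hy, mul_one]
  | far f g i j =>
    simp only [tw, List.map_cons, List.map_nil, List.prod_cons, List.prod_nil, mul_one]
    rw [tw_aux_far y hy f g i j]
    ring

theorem tw_curl (y : R) (i : ℕ) :
    tw y [(.cup, i), (.cr false, i)] = y ^ 3 * tw y [(.cup, i)] := by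
  simp only [tw, List.map_cons, List.map_nil, List.prod_cons, List.prod_nil, twK, mul_one]
  ring

theorem tw_triv (y : R) (n : ℕ) : tw y (triv n) = (y ^ 2) ^ n := by
  induction n with
  | zero => simp [tw, triv]
  | succ n ih =>
    have h : triv (n + 1) = [(Kind.cup, 0), (Kind.cap, 0)] ++ triv n := by
      simp [triv, List.replicate_succ]
    rw [h, tw_append, ih]
    simp only [tw, List.map_cons, List.map_nil, List.prod_cons, List.prod_nil, twK, mul_one]
    ring

end Pool.Agent.Lib.Skein
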