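import Pool.Agent.Lib.Skein.PolRel
import Pool.Agent.Lib.Skein.Tw
import Pool.Agent.Lib.Skein.Ind

set_option autoImplicit false

/-!
# Glue : the invariants give linear independence
-/

noncomputable section

namespace Pool.Agent.Lib.Skein

open Polynomial

variable {R : Type*} [CommRing R]

/-- the skein identity in a commutative ring -/
private theorem glue_key {S : Type*} [CommRing S]
    (a b0 b1 b2 b3 c3 e t x A0 B0 A1 B1 A2 B2 A3 B3 P0 P1 P2 : S) (ha : a ^ 4 = 1)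
    (hc3 : b3 * c3 = 1) (hx : x = -(a ^ 2 * b1 * c3))
    (h1 : e * (b0 + a ^ 2 * b2) = 0) (h2 : e * (b1 + a ^ 2 * b3) = 0)
    (h3 : (1 - e) * (b0 + a * b3) = 0) (h4 : (1 - e) * (b2 + a * b1) = 0)
    (h5 : (1 - e) * (b1 ^ 3 - b1 * b3 ^ 2) = 0)
    (hA1 : A2 + B2 = A0 + B0) (hA2 : A3 + B3 = A1 + B1)
    (hs1 : -A0 - B1 + B2 + A3 = 0) (hs2 : -B0 - A1 + A2 + B3 = 0) :
    b0 * (t * (e * (A0 + B0) + (1 - e) * ((1 - x ^ 2) * P0 + x ^ 2 * (A0 + x * B0)))) +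
      b1 * (t * a ^ 3 * (e * (A1 + B1) + (1 - e) * ((1 - x ^ 2) * P1 + x ^ 2 * (A1 + x * B1)))) +
      b2 * (t * (a ^ 3) ^ 2 *
        (e * (A2 + B2) + (1 - e) * ((1 - x ^ 2) * P2 + x ^ 2 * (A2 + x * B2)))) +
      b3 * (t * (a ^ 3) ^ 3 *
        (e * (A3 + B3) + (1 - e) * ((1 - x ^ 2) * P0 + x ^ 2 * (A3 + x * B3)))) = 0 := by
  have hb1 : b1 = -(a ^ 2 * x * b3) := by
    rw [hx]
    linear_combination (-b1) * ha - a ^ 4 * b1 * hc3
  have hf : (1 - e) * (x ^ 3 - x) = 0 := by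
    have h6 : x ^ 3 - x = -(a ^ 2 * c3 ^ 3 * (b1 ^ 3 - b1 * b3 ^ 2)) := by
      rw [hx]
      linear_combination (-(a ^ 2 * b1 ^ 3 * c3 ^ 3)) * ha -
        a ^ 2 * b1 * c3 * (b3 * c3 + 1) * hc3
    rw [h6]
    linear_combination (-(a ^ 2 * c3 ^ 3)) * h5
  have hE : e * (b0 * (A0 + B0) + b1 * a ^ 3 * (A1 + B1) + b2 * a ^ 6 * (A2 + B2) +
      b3 * a ^ 9 * (A3 + B3)) = 0 := by
    linear_combination (A0 + B0) * h1 + a ^ 3 * (A1 + B1) * h2 + e * b2 * a ^ 6 * hA1 +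
      e * b2 * a ^ 2 * (A0 + B0) * ha + e * b3 * a ^ 9 * hA2 + e * b3 * a ^ 5 * (A1 + B1) * ha
  obtain ⟨Q0, hQ0⟩ : ∃ Q, Q = (1 - x ^ 2) * P0 + x ^ 2 * (A0 + x * B0) := ⟨_, rfl⟩
  obtain ⟨Q1, hQ1⟩ : ∃ Q, Q = (1 - x ^ 2) * P1 + x ^ 2 * (A1 + x * B1) := ⟨_, rfl⟩
  obtain ⟨Q2, hQ2⟩ : ∃ Q, Q = (1 - x ^ 2) * P2 + x ^ 2 * (A2 + x * B2) := ⟨_, rfl⟩
  obtain ⟨Q3, hQ3⟩ : ∃ Q, Q = (1 - x ^ 2) * P0 + x ^ 2 * (A3 + x * B3) := ⟨_, rfl⟩
  have hQ : -Q0 - x * Q1 + x * Q2 + Q3 = (x - x ^ 3) * ((P2 - P1) + x * (B1 - B2)) := by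
    rw [hQ0, hQ1, hQ2, hQ3]
    linear_combination x ^ 2 * hs1 + x ^ 3 * hs2
  have hF : (1 - e) * (b0 * Q0 + b1 * a ^ 3 * Q1 + b2 * a ^ 6 * Q2 + b3 * a ^ 9 * Q3) = 0 := by
    have h7 : (1 - e) * (b0 * Q0 + b1 * a ^ 3 * Q1 + b2 * a ^ 6 * Q2 + b3 * a ^ 9 * Q3) =
        (1 - e) * b3 * a * (-Q0 - x * Q1 + x * Q2 + Q3) := by
      linear_combination Q0 * h3 + a ^ 6 * Q2 * h4 +
        (1 - e) * (a ^ 3 * Q1 - a ^ 7 * Q2) * hb1 +
        (1 - e) * b3 * a * ((a ^ 4 + 1) * (Q3 + x * Q2) - x * Q1) * ha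
    rw [h7, hQ]
    linear_combination (-(b3 * a * ((P2 - P1) + x * (B1 - B2)))) * hf
  rw [← hQ0, ← hQ1, ← hQ2, ← hQ3]
  linear_combination t * hE + t * hF

/-- the first polynomial over `R` -/
private def AA (R : Type*) [CommRing R] (w : Word) : R[X] := (al w).map (Int.castRingHom R)

/-- the second polynomial over `R` -/
private def BB (R : Type*) [CommRing R] (w : Word) : R[X] := (be w).map (Int.castRingHom R)

/-- the logarithm of the number of 3-colourings -/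
private def kk (w : Word) : ℕ := Nat.log 3 (ZZ triM w).toNat

/-- the invariant -/
private def VV (y e x : R) (w : Word) : R[X] :=
  C (tw y w) * (C e * (AA R w + BB R w) +
    (1 - C e) * ((1 - C x ^ 2) * X ^ kk w + C x ^ 2 * (AA R w + C x * BB R w)))

private theorem map_zero_eq {p : ℤ[X]} (h : p = 0) : p.map (Int.castRingHom R) = 0 := by
  rw [h, Polynomial.map_zero]

theorem glue (a b0 b1 b2 b3 c3 e : R) (ha : a ^ 4 = 1) (hc3 : b3 * c3 = 1)
    (h1 : e * (b0 + a ^ 2 * b2) = 0) (h2 : e * (b1 + a ^ 2 * b3) = 0)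
    (h3 : (1 - e) * (b0 + a * b3) = 0) (h4 : (1 - e) * (b2 + a * b1) = 0)
    (h5 : (1 - e) * (b1 ^ 3 - b1 * b3 ^ 2) = 0) : Indep R a b0 b1 b2 b3 0 := by
  have hy4 : (a ^ 3) ^ 4 = 1 := by
    rw [← pow_mul, show 3 * 4 = 4 * 3 by norm_num, pow_mul, ha, one_pow]
  have hy3 : (a ^ 3) ^ 3 = a := by
    have : (a ^ 3) ^ 3 = (a ^ 4) ^ 2 * a := by ring
    rw [this, ha, one_pow, one_mul]
  set x : R := -(a ^ 2 * b1 * c3) with hx
  refine indep_of a b0 b1 b2 b3 (VV (a ^ 3) e x) ?_ ?_ ?_ ((a ^ 3) ^ 2) ?_ ?_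
  · intro r s hrs u v hr hs
    obtain ⟨hA, hB⟩ := albe_move hrs u v hr hs
    unfold VV AA BB kk
    rw [hA, hB, ZZ_move triM hrs u v hr hs, tw_append, tw_append, tw_append, tw_append,
      tw_move _ hy4 hrs]
  · intro u v i h
    obtain ⟨ho1, ho2⟩ := albe_one u v i h
    obtain ⟨hs1, hs2⟩ := albe_skein u v i h
    have ht := tri_skein u v i h
    have ho1' := congrArg (Polynomial.map (Int.castRingHom R)) ho1
    have ho2' := congrArg (Polynomial.map (Int.castRingHom R)) ho2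
    have hs1' := congrArg (Polynomial.map (Int.castRingHom R)) hs1
    have hs2' := congrArg (Polynomial.map (Int.castRingHom R)) hs2
    simp only [Polynomial.map_add, Polynomial.map_sub, Polynomial.map_neg,
      Polynomial.map_zero] at ho1' ho2' hs1' hs2'
    have hk : kk (u ++ [(.cr true, i), (.cr true, i), (.cr true, i)] ++ v) = kk (u ++ v) := by
      unfold kk
      rw [ht]
    have t1 : tw (a ^ 3) (u ++ [(.cr true, i)] ++ v) = tw (a ^ 3) (u ++ v) * a ^ 3 := by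
      rw [tw_append, tw_append, tw_append]
      simp only [tw, twK, List.map_cons, List.map_nil, List.prod_cons, List.prod_nil]
      ring
    have t2 : tw (a ^ 3) (u ++ [(.cr true, i), (.cr true, i)] ++ v) =
        tw (a ^ 3) (u ++ v) * (a ^ 3) ^ 2 := by
      rw [tw_append, tw_append, tw_append]
      simp only [tw, twK, List.map_cons, List.map_nil, List.prod_cons, List.prod_nil]
      ring
    have t3 : tw (a ^ 3) (u ++ [(.cr true, i), (.cr true, i), (.cr true, i)] ++ v) =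
        tw (a ^ 3) (u ++ v) * (a ^ 3) ^ 3 := by
      rw [tw_append, tw_append, tw_append]
      simp only [tw, twK, List.map_cons, List.map_nil, List.prod_cons, List.prod_nil]
      ring
    have cmap : ∀ z : R, z = 0 → (C z : R[X]) = 0 := by
      rintro z rfl
      exact C_0
    have ha' : (C a : R[X]) ^ 4 = 1 := by rw [← C_pow, ha, C_1]
    have hc3' : (C b3 : R[X]) * C c3 = 1 := by rw [← C_mul, hc3, C_1]
    have hx' : (C x : R[X]) = -(C a ^ 2 * C b1 * C c3) := by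
      rw [hx]
      simp only [C_neg, C_mul, C_pow]
    have h1' := cmap _ h1
    have h2' := cmap _ h2
    have h3' := cmap _ h3
    have h4' := cmap _ h4
    have h5' := cmap _ h5
    simp only [C_mul, C_add, C_sub, C_pow, C_1] at h1' h2' h3' h4' h5'
    have key := glue_key (C a) (C b0) (C b1) (C b2) (C b3) (C c3) (C e)
      (C (tw (a ^ 3) (u ++ v))) (C x) _ _ _ _ _ _ _ _ (X ^ kk (u ++ v))
      (X ^ kk (u ++ [(.cr true, i)] ++ v))
      (X ^ kk (u ++ [(.cr true, i), (.cr true, i)] ++ v)) ha' hc3' hx' h1' h2' h3' h4' h5'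
      ho1' ho2' hs1' hs2'
    unfold VV
    rw [hk, t1, t2, t3]
    simp only [smul_eq_C_mul, C_mul, C_pow]
    exact key
  · intro u v i h
    obtain ⟨hA, hB⟩ := albe_curl u v i h
    unfold VV AA BB kk
    rw [hA, hB, ZZ_curl triM u v i h]
    have t1 : tw (a ^ 3) (u ++ [(.cup, i), (.cr false, i)] ++ v) =
        a * tw (a ^ 3) (u ++ [(.cup, i)] ++ v) := by
      rw [tw_append, tw_append, tw_curl, hy3, tw_append, tw_append]
      ring
    rw [t1, smul_eq_C_mul, C_mul, mul_assoc]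
  · refine IsUnit.of_mul_eq_one ((a ^ 3) ^ 2) ?_
    rw [← pow_add]
    exact hy4
  · intro n
    obtain ⟨hA, hB⟩ := albe_triv n
    have hk : kk (triv n) = n := by
      unfold kk
      rw [tri_triv]
      have : ((3 : ℤ) ^ n).toNat = 3 ^ n := by
        have h6 : ((3 : ℤ) ^ n) = ((3 ^ n : ℕ) : ℤ) := by push_cast; rfl
        rw [h6, Int.toNat_natCast]
      rw [this]
      exact Nat.log_pow (by norm_num) n
    unfold VV AA BB
    rw [hA, hB, hk, tw_triv, Polynomial.map_pow, Polynomial.map_X, Polynomial.map_zero, mul_pow,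
      C_pow]
    ring

end Pool.Agent.Lib.Skein
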