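import Pool.Agent.Lib.Skein.Inv

set_option autoImplicit false

/-!
# Inst : the two colouring models (about 100 lines)

`triM`: Fox 3-colourings. `colM N σ`: every component has one of `N` colours; a crossing where the over strand has
the smaller colour has weight `σ = ±1`. Skein relations from `ZZ_skein`:
* `triM`: `(x, y) ↦ (-x-y, x) ↦ (y, -x-y) ↦ (x, y)` (`c0 = -1, c3 = 1`; use `c1 = c2 = 0`).
* `colM`: `x = y`: all four values are `F (x :: y :: l)`; `x ≠ y`: exactly one of `x < y`, `y < x`, so with `w = wt x y`: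
  `L₁ = w F', L₂ = σ F, L₃ = σ w F'` (`σ² = 1`).
* `σ = 1`: `L₂ = L₀`, `L₃ = L₁`.
-/

noncomputable section

namespace Pool.Agent.Lib.Skein

/-- Fox 3-colourings -/
def triM : Model (ZMod 3) where
  S := Finset.univ
  act := fun o u => -(o + u)
  wt := fun _ _ => 1
  mem := by simp
  inv := by decide
  self := by decide
  dist := by decide
  wt_sq := by simp
  wt_self := by simp
  wt_right := by simp
  wt_left := by simp

/-- colourings of the components by `N` colours; a crossing whose over strand has the smaller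
colour has weight `σ` -/
def colM (N : ℕ) (σ : ℤˣ) : Model ℕ where
  S := Finset.range N
  act := fun _ u => u
  wt := fun o u => if o < u then (σ : ℤ) else 1
  mem := fun _ _ _ hu => hu
  inv := fun _ _ => rfl
  self := fun _ => rfl
  dist := fun _ _ _ => rfl
  wt_sq := by
    intro x y
    by_cases h : x < y
    · simp only [h, if_true]
      have h1 := Int.units_mul_self σ
      have h2 := congrArg (fun u : ℤˣ => (u : ℤ)) h1
      simp at h2 ⊢
    · simp [h]
  wt_self := by simp
  wt_right := fun _ _ _ => rfl
  wt_left := fun _ _ _ => rfl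

private theorem ev_cr {X : Type} (M : Model X) (w : Word) (F : List X → ℤ) (x y : X) (l : List X) :
    ev M ((.cr true, 0) :: w) F (x :: y :: l) = M.wt x y * ev M w F (M.act x y :: x :: l) := rfl

private theorem ev_nil {X : Type} (M : Model X) (F : List X → ℤ) (l : List X) :
    ev M [] F l = F l := rfl

theorem tri_skein (u v : Word) (i : ℕ) (h : Closed (u ++ [(.cr true, i)] ++ v)) :
    ZZ triM (u ++ [(.cr true, i), (.cr true, i), (.cr true, i)] ++ v) = ZZ triM (u ++ v) := by
  have key := ZZ_skein triM (-1) 0 0 1 (by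
    intro F x y l _ _
    simp only [ev_cr, ev_nil]
    have e1 : triM.act (triM.act (triM.act x y) x) (triM.act x y) = x := by
      show -(-(-(x + y) + x) + -(x + y)) = x
      ring
    have e2 : triM.act (triM.act x y) x = y := by
      show -(-(x + y) + x) = y
      ring
    have w1 : ∀ a b, triM.wt a b = 1 := fun _ _ => rfl
    rw [e1, e2]
    simp only [w1]
    ring) u v i h
  linarith

theorem tri_triv (n : ℕ) : ZZ triM (triv n) = 3 ^ n := by
  rw [ZZ_triv]
  have : triM.S.card = 3 := by
    show (Finset.univ : Finset (ZMod 3)).card = 3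
    decide
  rw [this]
  norm_num

private theorem colM_act (N : ℕ) (σ : ℤˣ) (x y : ℕ) : (colM N σ).act x y = y := rfl

private theorem colM_wt (N : ℕ) (σ : ℤˣ) (x y : ℕ) :
    (colM N σ).wt x y = if x < y then (σ : ℤ) else 1 := rfl

private theorem unit_sq (σ : ℤˣ) : (σ : ℤ) * (σ : ℤ) = 1 := by
  have h2 := congrArg (fun u : ℤˣ => (u : ℤ)) (Int.units_mul_self σ)
  simpa using h2

theorem col_skein (N : ℕ) (σ : ℤˣ) (u v : Word) (i : ℕ)
    (h : Closed (u ++ [(.cr true, i)] ++ v)) :
    -ZZ (colM N σ) (u ++ v) - (σ : ℤ) * ZZ (colM N σ) (u ++ [(.cr true, i)] ++ v) +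
      (σ : ℤ) * ZZ (colM N σ) (u ++ [(.cr true, i), (.cr true, i)] ++ v) +
      ZZ (colM N σ) (u ++ [(.cr true, i), (.cr true, i), (.cr true, i)] ++ v) = 0 := by
  have key := ZZ_skein (colM N σ) (-1) (-(σ : ℤ)) (σ : ℤ) 1 (by
    intro F x y l _ _
    simp only [ev_cr, ev_nil, colM_act, colM_wt]
    have hs := unit_sq σ
    rcases lt_trichotomy x y with hxy | hxy | hxy
    · have h2 : ¬ y < x := by omega
      simp only [hxy, h2, if_true, if_false]
      linear_combination F (x :: y :: l) * hs
    · subst hxy
      simp only [lt_irrefl, if_false]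
      ring
    · have h2 : ¬ x < y := by omega
      simp only [hxy, h2, if_true, if_false]
      linear_combination F (x :: y :: l) * hs) u v i h
  linarith

theorem col_one (N : ℕ) (u v : Word) (i : ℕ) (h : Closed (u ++ [(.cr true, i)] ++ v)) :
    ZZ (colM N 1) (u ++ [(.cr true, i), (.cr true, i)] ++ v) = ZZ (colM N 1) (u ++ v) ∧
      ZZ (colM N 1) (u ++ [(.cr true, i), (.cr true, i), (.cr true, i)] ++ v) =
        ZZ (colM N 1) (u ++ [(.cr true, i)] ++ v) := by
  have w1 : ∀ x y, (colM N 1).wt x y = 1 := by
    intro x y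
    rw [colM_wt]
    simp
  constructor
  · have key := ZZ_skein (colM N 1) (-1) 0 1 0 (by
      intro F x y l _ _
      simp only [ev_cr, ev_nil, colM_act, w1]
      ring) u v i h
    linarith
  · have key := ZZ_skein (colM N 1) 0 (-1) 0 1 (by
      intro F x y l _ _
      simp only [ev_cr, ev_nil, colM_act, w1]
      ring) u v i h
    linarith

theorem col_triv (N : ℕ) (σ : ℤˣ) (n : ℕ) : ZZ (colM N σ) (triv n) = (N : ℤ) ^ n := by
  rw [ZZ_triv]
  have : (colM N σ).S.card = N := by
    show (Finset.range N).card = N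
    exact Finset.card_range N
  rw [this]

end Pool.Agent.Lib.Skein
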