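import Pool.Agent.Lib.Skein.Moves

set_option autoImplicit false

/-!
# Inv : the state sums are invariants (about 120 lines)

`ZZ_move`: `Closed (u ++ r ++ v)` gives `run u 0 = some n`, `run r n = some n'` (`run_append`, `Option.bind_eq_some_iff`),
and `ev_append`, `ev_congr` (for `u`), `move_local`. `ZZ_curl`: same, locally
`ev M [(cup, i), (cr false, i)] F l = ev M [(cup, i)] F l` (by `ev_sh` at `i = 0`:
`∑_c wt c c F (c :: c▷c :: l)`, `self`, `wt_self`). `ZZ_triv`: `ev M [(cup,0),(cap,0)] F l = card S * F l`, induction.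
`ZZ_skein`: `ev_append`, `ev_add`, `ev_smul`, `ev_congr`, `ev_zero`; a list `l` with `i + 2 ≤ l.length` is
`p ++ x :: y :: l'` with `p.length = i`, and `[(cr true, i), ...] = sh i [(cr true, 0), ...]` (`ev_sh`).
-/

noncomputable section

namespace Pool.Agent.Lib.Skein

variable {X : Type} (M : Model X)

private theorem inv_split (l : List X) (i : ℕ) (h : i ≤ l.length) :
    ∃ p q : List X, l = p ++ q ∧ p.length = i :=
  ⟨l.take i, l.drop i, (List.take_append_drop i l).symm, by simp [h]⟩

theorem ZZ_move {r s : Word} (h : Move r s) (u v : Word) (h1 : Closed (u ++ r ++ v))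
    (h2 : Closed (u ++ s ++ v)) : ZZ M (u ++ r ++ v) = ZZ M (u ++ s ++ v) := by
  unfold Closed at h1 h2
  rw [run_append, run_append] at h1 h2
  cases hu : run u 0 with
  | none => simp [hu] at h1
  | some n =>
    rw [hu] at h1 h2
    simp only [Option.bind_some] at h1 h2
    obtain ⟨n1, hn1, hv1⟩ := Option.bind_eq_some_iff.1 h1
    obtain ⟨n2, hn2, hv2⟩ := Option.bind_eq_some_iff.1 h2
    unfold ZZ
    rw [ev_append, ev_append, ev_append, ev_append]
    refine ev_congr M u _ _ [] (by simp) n hu ?_
    intro l' hl' hS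
    exact move_local M h _ l' hS (by rw [hl']; exact hn1) (by rw [hl']; exact hn2)

theorem ZZ_curl (u v : Word) (i : ℕ) (h : Closed (u ++ [(.cup, i)] ++ v)) :
    ZZ M (u ++ [(.cup, i), (.cr false, i)] ++ v) = ZZ M (u ++ [(.cup, i)] ++ v) := by
  unfold Closed at h
  rw [run_append, run_append] at h
  cases hu : run u 0 with
  | none => simp [hu] at h
  | some n =>
    rw [hu] at h
    simp only [Option.bind_some] at h
    obtain ⟨n1, hn1, hv1⟩ := Option.bind_eq_some_iff.1 h
    have hin : i ≤ n := by
      by_contra hc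
      simp [run, Kind.inn] at hn1
      exact hc hn1.1
    unfold ZZ
    rw [ev_append, ev_append, ev_append, ev_append]
    refine ev_congr M u _ _ [] (by simp) n hu ?_
    intro l' hl' hS
    obtain ⟨p, q, rfl, hp⟩ := inv_split l' i (by omega)
    have e1 : [(Kind.cup, i), (Kind.cr false, i)] =
        sh p.length [(Kind.cup, 0), (Kind.cr false, 0)] := by simp [sh, hp]
    have e2 : [(Kind.cup, i)] = sh p.length [(Kind.cup, 0)] := by simp [sh, hp]
    rw [e1, e2, ev_sh, ev_sh]
    simp only [ev, op, base, M.wt_self, M.self, one_mul]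

theorem ZZ_triv (n : ℕ) : ZZ M (triv n) = (M.S.card : ℤ) ^ n := by
  unfold ZZ
  induction n with
  | zero => simp [triv, ev, top]
  | succ n ih =>
    have e1 : triv (n + 1) = [(Kind.cup, 0), (Kind.cap, 0)] ++ triv n := by
      simp [triv, List.replicate_succ]
    rw [e1, ev_append]
    have e2 : ∀ G : List X → ℤ, ev M [(Kind.cup, 0), (Kind.cap, 0)] G [] = (M.S.card : ℤ) * G [] := by
      intro G
      simp [ev, op, base]
    rw [e2, ih]
    ring

theorem ZZ_skein (c0 c1 c2 c3 : ℤ)
    (hc : ∀ (F : List X → ℤ) (x y : X) (l : List X), x ∈ M.S → y ∈ M.S →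
      c0 * F (x :: y :: l) + c1 * ev M [(.cr true, 0)] F (x :: y :: l) +
      c2 * ev M [(.cr true, 0), (.cr true, 0)] F (x :: y :: l) +
      c3 * ev M [(.cr true, 0), (.cr true, 0), (.cr true, 0)] F (x :: y :: l) = 0)
    (u v : Word) (i : ℕ) (h : Closed (u ++ [(.cr true, i)] ++ v)) :
    c0 * ZZ M (u ++ v) + c1 * ZZ M (u ++ [(.cr true, i)] ++ v) +
      c2 * ZZ M (u ++ [(.cr true, i), (.cr true, i)] ++ v) +
      c3 * ZZ M (u ++ [(.cr true, i), (.cr true, i), (.cr true, i)] ++ v) = 0 := by
  unfold Closed at h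
  rw [run_append, run_append] at h
  cases hu : run u 0 with
  | none => simp [hu] at h
  | some n =>
    rw [hu] at h
    simp only [Option.bind_some] at h
    obtain ⟨n1, hn1, hv1⟩ := Option.bind_eq_some_iff.1 h
    have hin : i + 2 ≤ n := by
      by_contra hc
      simp [run, Kind.inn, hc] at hn1
    unfold ZZ
    rw [ev_append, ev_append, ev_append, ev_append, ev_append, ev_append, ev_append]
    set G := ev M v top with hG
    rw [← ev_smul, ← ev_smul, ← ev_smul, ← ev_smul, ← ev_add, ← ev_add, ← ev_add]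
    rw [← ev_zero M u []]
    refine ev_congr M u _ _ [] (by simp) n hu ?_
    intro l' hl' hS
    obtain ⟨p, q, rfl, hp⟩ := inv_split l' i (by omega)
    rw [List.length_append] at hl'
    match q, hl', hS with
    | [], hl', _ => simp at hl'; omega
    | [a], hl', _ => simp at hl'; omega
    | x :: y :: l, hl', hS =>
      have e1 : [(Kind.cr true, i)] = sh p.length [(Kind.cr true, 0)] := by simp [sh, hp]
      have e2 : [(Kind.cr true, i), (Kind.cr true, i)] =
          sh p.length [(Kind.cr true, 0), (Kind.cr true, 0)] := by simp [sh, hp]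
      have e3 : [(Kind.cr true, i), (Kind.cr true, i), (Kind.cr true, i)] =
          sh p.length [(Kind.cr true, 0), (Kind.cr true, 0), (Kind.cr true, 0)] := by
        simp [sh, hp]
      rw [e3, e2, e1, ev_sh, ev_sh, ev_sh]
      exact hc (fun l' => G (p ++ l')) x y l (hS x (by simp)) (hS y (by simp))

end Pool.Agent.Lib.Skein
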