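import Pool.Agent.Lib.Skein.Ops

set_option autoImplicit false

/-!
# Moves : the local moves (about 200 lines)

`move_local`: cases on the move. Each move at position `i` is `sh i` of the move at position `0` (for `far` too:
`[(g, f.inn + j), (f, 0)]` and `[(f, 0), (g, f.out + j)]`). The length condition gives `i ≤ l.length`, so
`l = p ++ l'`, `p.length = i` (`List.take_append_drop`), and by `ev_sh` (and `run_sh`) we may take `i = 0`. At position
0 everything is explicit (write `o▷u = act o u`, `o` over):
* zig on `z :: l`: `∑_c [z = c] F (c :: l) = F (z :: l)` (`z ∈ S`); zag: `∑_c [c = z] F (c :: l)`.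
* r2 on `x :: y :: l`: `(x,y) ↦ (x▷y, x) ↦ (x, x▷(x▷y)) = (x, y)`, weight `wt x y * wt x (x▷y) = 1` (`wt_right`, `wt_sq`);
  `s = false`: `(x,y) ↦ (y, y▷x) ↦ (y▷(y▷x), y)`.
* r3 on `x :: y :: z :: l`, `s = true`: left `(x▷y, x, z)`, `(x▷y, x▷z, x)`, `((x▷y)▷(x▷z), x▷y, x)`, weight
  `wt x y * wt x z * wt (x▷y) (x▷z)`; right: `(x, y▷z, y)`, `(x▷(y▷z), x, y)`, `(x▷(y▷z), x▷y, x)`, weight
  `wt y z * wt x (y▷z) * wt x y` (`dist`, `wt_right`, `wt_left`). `s = false`: mirror image: left
  `(y, y▷x, z)`, `(y, z, z▷(y▷x))`, `(z, z▷y, z▷(y▷x))`; right `(x, z, z▷y)`, `(z, z▷x, z▷y)`,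
  `(z, z▷y, (z▷y)▷(z▷x))`.
* slideCup on `z :: l`: `s = true`: both `∑_c wt c z F (c :: c▷z :: c :: l)`. `s = false`:
  `∑_c wt z c F (c :: z :: z▷c :: l)` and `∑_c wt z c F (z▷c :: z :: c :: l)`: substitute `c ↦ z▷c` (a bijection of
  `S`: `mem`, `inv`; `wt_right`).
* slideCap on `x :: y :: z :: l`: `s = true`: `[x = z] wt x y F (x▷y :: l)` and `[x = z] wt z y F (z▷y :: l)`;
  `s = false`: `[y▷x = z] wt y x F (y :: l)` and `[x = y▷z] wt y z F (y :: l)` (`inv`, `wt_right`).
* curl on `z :: l`: all four are `F (z :: l)` (`c = c▷z` iff `z = c▷c = c`; `self`, `wt_self`).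
* far: `f = cup`: `op_sum`; `f = cap`: both are `[x = y]` times `op g j (fun l' => F l') l`; `f = cr`: `op_smul`.
-/

noncomputable section

namespace Pool.Agent.Lib.Skein

variable {X : Type} (M : Model X)

private def Good (r s : Word) : Prop :=
  ∀ (F : List X → ℤ) (l : List X), (∀ x ∈ l, x ∈ M.S) → ∀ n n' : ℕ,
    run r l.length = some n → run s l.length = some n' → ev M r F l = ev M s F l

private theorem good_sh {k : Kind} {j : ℕ} {r0 s0 : Word} (h : Good M ((k, j) :: r0) s0) (i : ℕ) :
    Good M (sh i ((k, j) :: r0)) (sh i s0) := by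
  intro F l hl n n' hr hs
  have hi : i ≤ l.length := by
    have h1 : sh i ((k, j) :: r0) = (k, j + i) :: sh i r0 := rfl
    rw [h1] at hr
    simp only [run] at hr
    by_contra hc
    rw [if_neg (by omega)] at hr
    exact absurd hr (by simp)
  obtain ⟨p, l', hp, rfl⟩ : ∃ p l', p.length = i ∧ l = p ++ l' :=
    ⟨l.take i, l.drop i, by rw [List.length_take]; omega, (List.take_append_drop i l).symm⟩
  have hlen : (p ++ l').length = l'.length + i := by rw [List.length_append]; omega
  rw [hlen, run_sh] at hr hs
  rw [← hp, ev_sh, ev_sh]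
  have hr' : ∃ m, run ((k, j) :: r0) l'.length = some m := by
    cases hc : run ((k, j) :: r0) l'.length with
    | none => rw [hc] at hr; simp at hr
    | some m => exact ⟨m, rfl⟩
  have hs' : ∃ m, run s0 l'.length = some m := by
    cases hc : run s0 l'.length with
    | none => rw [hc] at hs; simp at hs
    | some m => exact ⟨m, rfl⟩
  obtain ⟨m, hm⟩ := hr'
  obtain ⟨m', hm'⟩ := hs'
  exact h _ l' (fun x hx => hl x (by simp [hx])) m m' hm hm'

private theorem good_zig : Good M [(.cup, 1), (.cap, 0)] [] := by
  intro F l hl n n' hr hs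
  cases l with
  | nil => simp [run, Kind.inn] at hr
  | cons z l =>
    have hz : z ∈ M.S := hl z (by simp)
    simp only [ev, op, base]
    classical
    rw [Finset.sum_eq_single z]
    · simp
    · intro b _ hb; rw [if_neg (fun h => hb h.symm)]
    · intro h; exact absurd hz h

private theorem good_zag : Good M [(.cup, 0), (.cap, 1)] [] := by
  intro F l hl n n' hr hs
  cases l with
  | nil => simp [run, Kind.inn, Kind.out] at hr
  | cons z l =>
    have hz : z ∈ M.S := hl z (by simp)
    simp only [ev, op, base]
    classical
    rw [Finset.sum_eq_single z]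
    · simp
    · intro b _ hb; rw [if_neg hb]
    · intro h; exact absurd hz h

private theorem good_r2 (s : Bool) : Good M [(.cr s, 0), (.cr (!s), 0)] [] := by
  intro F l hl n n' hr hs
  match l with
  | [] => simp [run, Kind.inn] at hr
  | [x] => simp [run, Kind.inn] at hr
  | x :: y :: l =>
    cases s
    · simp only [ev, op, base, Bool.not_false]
      rw [M.inv, M.wt_right, ← mul_assoc, M.wt_sq, one_mul]
    · simp only [ev, op, base, Bool.not_true]
      rw [M.inv, M.wt_right, ← mul_assoc, M.wt_sq, one_mul]

private theorem good_r3 (s : Bool) : Good M [(.cr s, 0), (.cr s, 1), (.cr s, 0)]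
    [(.cr s, 1), (.cr s, 0), (.cr s, 1)] := by
  intro F l hl n n' hr hs
  match l with
  | [] => simp [run, Kind.inn] at hr
  | [x] => simp [run, Kind.inn] at hr
  | [x, y] => simp [run, Kind.inn, Kind.out] at hr
  | x :: y :: z :: l =>
    cases s
    · simp only [ev, op, base, M.wt_right, M.wt_left, M.dist]
      ring
    · simp only [ev, op, base, M.wt_right, M.wt_left, M.dist]
      ring

private theorem good_slideCup (s : Bool) : Good M [(.cup, 0), (.cr s, 1)]
    [(.cup, 1), (.cr (!s), 0)] := by
  intro F l hl n n' hr hs
  match l with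
  | [] => simp [run, Kind.inn, Kind.out] at hr
  | z :: l =>
    have hz : z ∈ M.S := hl z (by simp)
    cases s
    · simp only [ev, op, base, Bool.not_false]
      refine Finset.sum_bij (fun c _ => M.act z c) (fun c hc => M.mem z hz c hc) ?_ ?_ ?_
      · intro c _ c' _ h
        have h2 := congrArg (M.act z) h
        rwa [M.inv, M.inv] at h2
      · intro c hc
        exact ⟨M.act z c, M.mem z hz c hc, M.inv z c⟩
      · intro c _
        rw [M.wt_right, M.inv]
    · simp only [ev, op, base, Bool.not_true]

private theorem good_slideCap (s : Bool) : Good M [(.cr s, 0), (.cap, 1)]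
    [(.cr (!s), 1), (.cap, 0)] := by
  intro F l hl n n' hr hs
  match l with
  | [] => simp [run, Kind.inn] at hr
  | [x] => simp [run, Kind.inn] at hr
  | [x, y] => simp [run, Kind.inn, Kind.out] at hr
  | x :: y :: z :: l =>
    classical
    cases s
    · simp only [ev, op, base, Bool.not_false]
      by_cases h : M.act y x = z
      · have h' : x = M.act y z := by rw [← h, M.inv]
        rw [if_pos h, if_pos h', h', M.wt_right]
      · have h' : ¬ x = M.act y z := fun h' => h (by rw [h', M.inv])
        rw [if_neg h, if_neg h', mul_zero, mul_zero]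
    · simp only [ev, op, base, Bool.not_true]
      by_cases h : x = z
      · rw [if_pos h, if_pos h, h]
      · rw [if_neg h, if_neg h, mul_zero, mul_zero]

private theorem good_curl (s : Bool) : Good M [(.cup, 1), (.cr s, 0), (.cap, 1)]
    [(.cup, 0), (.cr s, 1), (.cap, 0)] := by
  intro F l hl n n' hr hs
  match l with
  | [] => simp [run, Kind.inn] at hr
  | z :: l =>
    have hz : z ∈ M.S := hl z (by simp)
    classical
    have key : ∀ c, M.act c z = c → z = c := fun c h => by
      have h2 := congrArg (M.act c) h
      rwa [M.inv, M.self] at h2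
    have hL : ∑ c ∈ M.S, (M.wt z c * if z = c then F (M.act z c :: l) else 0) = F (z :: l) := by
      rw [Finset.sum_eq_single z]
      · rw [if_pos rfl, M.wt_self, M.self, one_mul]
      · intro b _ hb; rw [if_neg (fun h => hb h.symm), mul_zero]
      · intro h; exact absurd hz h
    have hL2 : ∑ c ∈ M.S, (M.wt c z * if M.act c z = c then F (c :: l) else 0) = F (z :: l) := by
      rw [Finset.sum_eq_single z]
      · rw [if_pos (M.self z), M.wt_self, one_mul]
      · intro b _ hb
        rw [if_neg (fun h => hb (key b h).symm), mul_zero]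
      · intro h; exact absurd hz h
    have hR : ∑ c ∈ M.S, (M.wt c z * if c = M.act c z then F (c :: l) else 0) = F (z :: l) := by
      rw [Finset.sum_eq_single z]
      · rw [if_pos (M.self z).symm, M.wt_self, one_mul]
      · intro b _ hb
        rw [if_neg (fun h => hb (key b h.symm).symm), mul_zero]
      · intro h; exact absurd hz h
    have hR2 : ∑ c ∈ M.S, (M.wt z c * if c = z then F (M.act z c :: l) else 0) = F (z :: l) := by
      rw [Finset.sum_eq_single z]
      · rw [if_pos rfl, M.wt_self, M.self, one_mul]
      · intro b _ hb; rw [if_neg hb, mul_zero]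
      · intro h; exact absurd hz h
    cases s
    · simp only [ev, op, base]
      rw [hL2, hR2]
    · simp only [ev, op, base]
      rw [hL, hR]

private theorem good_far (f g : Kind) (j : ℕ) :
    Good M [(g, f.inn + j), (f, 0)] [(f, 0), (g, f.out + j)] := by
  intro F l hl n n' hr hs
  match f with
  | .cup =>
    simp only [ev, op, base, Kind.inn, Kind.out, zero_add]
    rw [show (2 + j) = j + 1 + 1 by omega]
    simp only [op]
    exact op_sum M M.S g j (fun c l' => F (c :: c :: l')) l
  | .cap =>
    simp only [Kind.inn, Kind.out, zero_add]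
    rw [show (2 + j) = j + 1 + 1 by omega]
    match l with
    | [] => simp [run, Kind.inn] at hs
    | [x] => simp [run, Kind.inn] at hs
    | x :: y :: l =>
      simp only [ev, op, base]
      by_cases h : x = y
      · simp only [if_pos h]
      · simp only [if_neg h]
        have h2 := op_smul M g j 0 (fun _ => 0) l
        simpa using h2
  | .cr true =>
    simp only [Kind.inn, Kind.out]
    rw [show (2 + j) = j + 1 + 1 by omega]
    match l with
    | [] => simp [run, Kind.inn] at hs
    | [x] => simp [run, Kind.inn] at hs
    | x :: y :: l =>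
      simp only [ev, op, base]
      exact op_smul M g j (M.wt x y) (fun l' => F (M.act x y :: x :: l')) l
  | .cr false =>
    simp only [Kind.inn, Kind.out]
    rw [show (2 + j) = j + 1 + 1 by omega]
    match l with
    | [] => simp [run, Kind.inn] at hs
    | [x] => simp [run, Kind.inn] at hs
    | x :: y :: l =>
      simp only [ev, op, base]
      exact op_smul M g j (M.wt y x) (fun l' => F (y :: M.act y x :: l')) l

theorem move_local {r s : Word} (h : Move r s) (F : List X → ℤ) (l : List X)
    (hl : ∀ x ∈ l, x ∈ M.S) {n n' : ℕ} (hr : run r l.length = some n)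
    (hs : run s l.length = some n') : ev M r F l = ev M s F l := by
  have main : Good M r s := by
    cases h with
    | zig i =>
      have h := good_sh M (good_zig M) i
      simpa [sh, Nat.add_comm] using h
    | zag i =>
      have h := good_sh M (good_zag M) i
      simpa [sh, Nat.add_comm] using h
    | r2 i s =>
      have h := good_sh M (good_r2 M s) i
      simpa [sh, Nat.add_comm] using h
    | r3 i s =>
      have h := good_sh M (good_r3 M s) i
      simpa [sh, Nat.add_comm] using h
    | slideCup i s =>
      have h := good_sh M (good_slideCup M s) i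
      simpa [sh, Nat.add_comm] using h
    | slideCap i s =>
      have h := good_sh M (good_slideCap M s) i
      simpa [sh, Nat.add_comm] using h
    | curl i s =>
      have h := good_sh M (good_curl M s) i
      simpa [sh, Nat.add_comm] using h
    | far f g i j =>
      have h := good_sh M (good_far M f g j) i
      have e1 : f.inn + j + i = i + f.inn + j := by omega
      have e2 : f.out + j + i = i + f.out + j := by omega
      simpa [sh, e1, e2] using h
  exact main F l hl n n' hr hs

end Pool.Agent.Lib.Skein
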