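import Pool.Agent.Lib.Skein.Defs

set_option autoImplicit false

/-!
# Ops : first lemmas on `run`, `op`, `ev` (about 120 lines, inductions)

`op_congr`: `op M k i F l` depends only on the values of `F` on lists of length `l.length - inn + out` with
entries in `S` (induction on `i`, `l`). `ev_congr`: induction on the word. Linearity (`op_add`, `op_smul`,
`op_sum`, `ev_add`, `ev_smul`, `ev_zero`): induction on `i` (cases on `k`, on the list), then on the word.
`ev_sh`: positions shifted by `p.length` act on the part behind `p` (induction on `p` for `op`, then on the word).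
`run_sh`: `j + i + inn ≤ n + i` iff `j + inn ≤ n`.
-/

noncomputable section

namespace Pool.Agent.Lib.Skein

variable {X : Type} (M : Model X)

theorem run_append (u v : Word) (n : ℕ) : run (u ++ v) n = (run u n).bind (run v) := by
  induction u generalizing n with
  | nil => rfl
  | cons a u ih =>
    obtain ⟨k, i⟩ := a
    rw [List.cons_append, run, run]
    split_ifs with h
    · exact ih _
    · rfl

theorem ev_append (u v : Word) (F : List X → ℤ) : ev M (u ++ v) F = ev M u (ev M v F) := by
  induction u with
  | nil => rfl
  | cons a u ih =>
    obtain ⟨k, i⟩ := a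
    rw [List.cons_append, ev, ev, ih]

private theorem base_congr (k : Kind) (F G : List X → ℤ) (l : List X) (hl : ∀ x ∈ l, x ∈ M.S)
    (hi : k.inn ≤ l.length)
    (h : ∀ l' : List X, l'.length = l.length - k.inn + k.out → (∀ x ∈ l', x ∈ M.S) → F l' = G l') :
    base M k F l = base M k G l := by
  cases k with
  | cup =>
    rw [base, base]
    refine Finset.sum_congr rfl fun c hc => ?_
    refine h _ ?_ ?_
    · simp only [List.length_cons, Kind.inn, Kind.out]
      omega
    · intro x hx
      rcases List.mem_cons.1 hx with rfl | hx
      · exact hc
      · rcases List.mem_cons.1 hx with rfl | hx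
        · exact hc
        · exact hl x hx
  | cap =>
    rcases l with _ | ⟨x, _ | ⟨y, l⟩⟩
    · simp [Kind.inn] at hi
    · simp [Kind.inn] at hi
    · rw [base, base]
      have h1 := h l (by
        simp only [List.length_cons, Kind.inn, Kind.out]
        omega) (fun z hz => hl z (List.mem_cons_of_mem _ (List.mem_cons_of_mem _ hz)))
      rw [h1]
  | cr s =>
    rcases l with _ | ⟨x, _ | ⟨y, l⟩⟩
    · simp [Kind.inn] at hi
    · simp [Kind.inn] at hi
    · have hx : x ∈ M.S := hl x List.mem_cons_self
      have hy : y ∈ M.S := hl y (List.mem_cons_of_mem _ List.mem_cons_self)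
      have hz : ∀ z ∈ l, z ∈ M.S := fun z hz =>
        hl z (List.mem_cons_of_mem _ (List.mem_cons_of_mem _ hz))
      have hlen : ∀ a c : X, (a :: c :: l).length =
          (x :: y :: l).length - (Kind.cr s).inn + (Kind.cr s).out := by
        intro a c
        simp only [List.length_cons, Kind.inn, Kind.out]
        omega
      have hmem : ∀ a c : X, a ∈ M.S → c ∈ M.S → ∀ z ∈ a :: c :: l, z ∈ M.S := by
        intro a c ha hc z hz'
        rcases List.mem_cons.1 hz' with rfl | hz'
        · exact ha
        · rcases List.mem_cons.1 hz' with rfl | hz'
          · exact hc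
          · exact hz z hz'
      cases s with
      | true =>
        rw [base, base, h _ (hlen _ _) (hmem _ _ (M.mem x hx y hy) hx)]
      | false =>
        rw [base, base, h _ (hlen _ _) (hmem _ _ hy (M.mem y hy x hx))]

theorem op_congr (k : Kind) (i : ℕ) (F G : List X → ℤ) (l : List X) (hl : ∀ x ∈ l, x ∈ M.S)
    (hi : i + k.inn ≤ l.length)
    (h : ∀ l' : List X, l'.length = l.length - k.inn + k.out → (∀ x ∈ l', x ∈ M.S) → F l' = G l') :
    op M k i F l = op M k i G l := by
  induction i generalizing F G l with
  | zero =>
    rw [op, op]
    exact base_congr M k F G l hl (by omega) h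
  | succ i ih =>
    cases l with
    | nil =>
      simp only [List.length_nil] at hi
      omega
    | cons x l =>
      rw [op, op]
      rw [List.length_cons] at hi
      refine ih _ _ l (fun z hz => hl z (List.mem_cons_of_mem _ hz)) (by omega) fun l' h1 h2 => ?_
      refine h _ ?_ ?_
      · rw [List.length_cons, List.length_cons]
        omega
      · intro z hz
        rcases List.mem_cons.1 hz with rfl | hz
        · exact hl z List.mem_cons_self
        · exact h2 z hz

theorem ev_congr (w : Word) (F G : List X → ℤ) (l : List X) (hl : ∀ x ∈ l, x ∈ M.S) (n : ℕ)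
    (hr : run w l.length = some n)
    (h : ∀ l' : List X, l'.length = n → (∀ x ∈ l', x ∈ M.S) → F l' = G l') :
    ev M w F l = ev M w G l := by
  induction w generalizing l with
  | nil =>
    rw [run] at hr
    exact h l (Option.some.inj hr) hl
  | cons a w ih =>
    obtain ⟨k, i⟩ := a
    rw [run] at hr
    split_ifs at hr with hi
    rw [ev, ev]
    refine op_congr M k i _ _ l hl hi fun l' h1 h2 => ?_
    refine ih l' h2 ?_
    rw [h1]
    exact hr

private theorem base_add (k : Kind) (F G : List X → ℤ) (l : List X) :
    base M k (fun l' => F l' + G l') l = base M k F l + base M k G l := by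
  cases k with
  | cup =>
    rw [base, base, base]
    exact Finset.sum_add_distrib
  | cap =>
    rcases l with _ | ⟨x, _ | ⟨y, l⟩⟩
    · rfl
    · rfl
    · rw [base, base, base]
      split_ifs
      · rfl
      · rfl
  | cr s =>
    rcases l with _ | ⟨x, _ | ⟨y, l⟩⟩
    · cases s <;> rfl
    · cases s <;> rfl
    · cases s
      · rw [base, base, base]
        ring
      · rw [base, base, base]
        ring

private theorem base_smul (k : Kind) (c : ℤ) (F : List X → ℤ) (l : List X) :
    base M k (fun l' => c * F l') l = c * base M k F l := by
  cases k with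
  | cup =>
    rw [base, base]
    exact (Finset.mul_sum _ _ _).symm
  | cap =>
    rcases l with _ | ⟨x, _ | ⟨y, l⟩⟩
    · exact (mul_zero c).symm
    · exact (mul_zero c).symm
    · rw [base, base]
      split_ifs
      · rfl
      · exact (mul_zero c).symm
  | cr s =>
    rcases l with _ | ⟨x, _ | ⟨y, l⟩⟩
    · cases s <;> exact (mul_zero c).symm
    · cases s <;> exact (mul_zero c).symm
    · cases s
      · rw [base, base]
        ring
      · rw [base, base]
        ring

theorem op_add (k : Kind) (i : ℕ) (F G : List X → ℤ) (l : List X) :
    op M k i (fun l' => F l' + G l') l = op M k i F l + op M k i G l := by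
  induction i generalizing F G l with
  | zero =>
    rw [op, op, op]
    exact base_add M k F G l
  | succ i ih =>
    cases l with
    | nil => rfl
    | cons x l =>
      rw [op, op, op]
      exact ih _ _ l

theorem op_smul (k : Kind) (i : ℕ) (c : ℤ) (F : List X → ℤ) (l : List X) :
    op M k i (fun l' => c * F l') l = c * op M k i F l := by
  induction i generalizing F l with
  | zero =>
    rw [op, op]
    exact base_smul M k c F l
  | succ i ih =>
    cases l with
    | nil => exact (mul_zero c).symm
    | cons x l =>
      rw [op, op]
      exact ih _ l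

theorem op_sum {ι : Type} (s : Finset ι) (k : Kind) (i : ℕ) (F : ι → List X → ℤ) (l : List X) :
    op M k i (fun l' => ∑ c ∈ s, F c l') l = ∑ c ∈ s, op M k i (F c) l := by
  classical
  induction s using Finset.induction_on with
  | empty =>
    have h := op_smul M k i 0 (fun _ : List X => (0 : ℤ)) l
    simp only [Finset.sum_empty]
    simp only [zero_mul] at h
    exact h
  | insert a s ha ih =>
    simp only [Finset.sum_insert ha]
    rw [op_add, ih]

theorem ev_add (w : Word) (F G : List X → ℤ) (l : List X) :
    ev M w (fun l' => F l' + G l') l = ev M w F l + ev M w G l := by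
  induction w generalizing l with
  | nil => rfl
  | cons a w ih =>
    obtain ⟨k, i⟩ := a
    have h : ev M w (fun l' => F l' + G l') = fun l' => ev M w F l' + ev M w G l' := funext ih
    rw [ev, ev, ev, h]
    exact op_add M k i _ _ l

theorem ev_smul (w : Word) (c : ℤ) (F : List X → ℤ) (l : List X) :
    ev M w (fun l' => c * F l') l = c * ev M w F l := by
  induction w generalizing l with
  | nil => rfl
  | cons a w ih =>
    obtain ⟨k, i⟩ := a
    have h : ev M w (fun l' => c * F l') = fun l' => c * ev M w F l' := funext ih
    rw [ev, ev, h]
    exact op_smul M k i c _ l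

theorem ev_zero (w : Word) (l : List X) : ev M w (fun _ => 0) l = 0 := by
  have h := ev_smul M w 0 (fun _ : List X => (0 : ℤ)) l
  simp only [zero_mul] at h
  exact h

private theorem op_sh (k : Kind) (i : ℕ) (F : List X → ℤ) (p l : List X) :
    op M k (i + p.length) F (p ++ l) = op M k i (fun l' => F (p ++ l')) l := by
  induction p generalizing F with
  | nil => rfl
  | cons x p ih =>
    have h : i + (x :: p).length = (i + p.length) + 1 := by
      rw [List.length_cons]
      omega
    rw [h, List.cons_append, op]
    exact ih _

theorem ev_sh (w : Word) (F : List X → ℤ) (p l : List X) :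
    ev M (sh p.length w) F (p ++ l) = ev M w (fun l' => F (p ++ l')) l := by
  induction w generalizing l with
  | nil => rfl
  | cons a w ih =>
    obtain ⟨k, i⟩ := a
    have h1 : sh p.length ((k, i) :: w) = (k, i + p.length) :: sh p.length w := rfl
    have h2 : ev M w (fun l' => F (p ++ l')) = fun l' => ev M (sh p.length w) F (p ++ l') :=
      (funext ih).symm
    rw [h1, ev, ev, op_sh, h2]

theorem run_sh (w : Word) (i n : ℕ) : run (sh i w) (n + i) = (run w n).map (fun m => m + i) := by
  induction w generalizing n with
  | nil => rfl
  | cons a w ih =>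
    obtain ⟨k, j⟩ := a
    have h1 : sh i ((k, j) :: w) = (k, j + i) :: sh i w := rfl
    rw [h1, run, run]
    by_cases h : j + k.inn ≤ n
    · rw [if_pos h, if_pos (by omega)]
      have h2 : n + i - k.inn + k.out = (n - k.inn + k.out) + i := by omega
      rw [h2]
      exact ih _
    · rw [if_neg h, if_neg (by omega)]
      rfl

end Pool.Agent.Lib.Skein
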