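import Pool.Agent.Lib.Skein.Inst

set_option autoImplicit false

/-!
# Perm : permutation invariance of the sum over colourings (about 150 lines)

`θ(x,y) = σ` if `x < y` and `π y < π x`, else `1`; `χ(x :: l) = (∏_{y ∈ l} θ(x,y)) χ(l)`.
`ev_perm`: induction on the word from the one layer statement (`op_perm`): if for a function `η : ℕ → ℤ` with
`η² = 1` and all `l'`: `F (l'.map π) = (∏_{y ∈ l'} η y) χ(l') G l'`, then
`op k i F (l.map π) = (∏_{y ∈ l} η y) χ(l) op k i G l`. Induction on `i` with `η`, `F`, `G` general: step
`x :: l`, `op k (i+1) F (π x :: l.map π) = op k i (fun l' => F (π x :: l')) (l.map π)`, and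
`F (π x :: l'.map π) = η x (∏_{y ∈ l'} η y θ(x,y)) χ(l') G (x :: l')`: use the induction hypothesis with
`η' = η θ(x,·)` and `G' l' = η x G (x :: l')`, and `op_smul`. Case `i = 0`:
* cup: substitute `c = π c'` in the sum over `range N` (`hπ`); `∏ η` over `c :: c :: l` is `∏ η` over `l`
  (`η c ^ 2 = 1`), `χ(c :: c :: l) = χ(l)` (`θ(c,c) = 1`, `θ(c,y)² = 1`);
* cap: `π x = π y` iff `x = y`, same computation;
* crossing on `x :: y :: l`: `wt (π x) (π y) θ(y,x) = θ(x,y) wt x y` and `wt (π y) (π x) θ(y,x) = θ(x,y) wt y x` (check
  `x < y`, `x = y`, `x > y`, inverted by `π` or not; `σ² = 1`).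
`top`: `l.map π = []` iff `l = []`. `ev_new`: `π = Equiv.swap m c`; all entries of `l` are `≤ m ≤ c`, so no pair is inverted,
all `θ = 1`, `χ(l) = 1`.
-/

noncomputable section

namespace Pool.Agent.Lib.Skein

/-- the sign of a pair of colours under a permutation of the colours -/
def theta (σ : ℤˣ) (π : Equiv.Perm ℕ) (x y : ℕ) : ℤ := if x < y ∧ π y < π x then (σ : ℤ) else 1

/-- the sign of a list of colours under a permutation of the colours -/
def chi (σ : ℤˣ) (π : Equiv.Perm ℕ) : List ℕ → ℤ
  | [] => 1
  | x :: l => (l.map (theta σ π x)).prod * chi σ π l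

private theorem usq (σ : ℤˣ) : (σ : ℤ) * (σ : ℤ) = 1 := by
  have h1 := Int.units_mul_self σ
  have h2 := congrArg (fun u : ℤˣ => (u : ℤ)) h1
  simpa using h2

private theorem theta_sq (σ : ℤˣ) (π : Equiv.Perm ℕ) (x y : ℕ) :
    theta σ π x y * theta σ π x y = 1 := by
  unfold theta
  split_ifs
  · exact usq σ
  · norm_num

private theorem theta_self (σ : ℤˣ) (π : Equiv.Perm ℕ) (x : ℕ) : theta σ π x x = 1 := by
  simp [theta]

private theorem prod_sq (f : ℕ → ℤ) (hf : ∀ x, f x * f x = 1) (l : List ℕ) :
    (l.map f).prod * (l.map f).prod = 1 := by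
  induction l with
  | nil => simp
  | cons a l ih =>
    simp only [List.map_cons, List.prod_cons]
    calc f a * (l.map f).prod * (f a * (l.map f).prod)
        = (f a * f a) * ((l.map f).prod * (l.map f).prod) := by ring
      _ = 1 := by rw [hf, ih]; norm_num

private theorem chi_two (σ : ℤˣ) (π : Equiv.Perm ℕ) (c : ℕ) (l : List ℕ) :
    chi σ π (c :: c :: l) = chi σ π l := by
  have h := prod_sq (theta σ π c) (theta_sq σ π c) l
  simp only [chi, List.map_cons, List.prod_cons, theta_self]
  calc 1 * (l.map (theta σ π c)).prod * ((l.map (theta σ π c)).prod * chi σ π l)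
      = ((l.map (theta σ π c)).prod * (l.map (theta σ π c)).prod) * chi σ π l := by ring
    _ = chi σ π l := by rw [h]; ring

private theorem wt_theta (N : ℕ) (σ : ℤˣ) (π : Equiv.Perm ℕ) (x y : ℕ) :
    (colM N σ).wt (π x) (π y) * theta σ π y x = theta σ π x y * (colM N σ).wt x y := by
  have hs := usq σ
  show (if π x < π y then (σ : ℤ) else 1) * theta σ π y x =
    theta σ π x y * (if x < y then (σ : ℤ) else 1)
  unfold theta
  rcases lt_trichotomy x y with h | h | h
  · have h1 : ¬ y < x := by omega
    by_cases h2 : π x < π y
    · have h3 : ¬ π y < π x := by omega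
      simp [h, h1, h2, h3]
    · have h3 : π y < π x := by
        have : π x ≠ π y := fun h' => by
          have := π.injective h'
          omega
        omega
      simp [h, h1, h2, h3, hs]
  · subst h
    simp
  · have h1 : ¬ x < y := by omega
    by_cases h2 : π x < π y
    · have h3 : ¬ π y < π x := by omega
      simp [h, h1, h2, hs]
    · simp [h, h1, h2]

private theorem wt_theta' (N : ℕ) (σ : ℤˣ) (π : Equiv.Perm ℕ) (x y : ℕ) :
    (colM N σ).wt (π y) (π x) * theta σ π y x = theta σ π x y * (colM N σ).wt y x := by
  have hs := usq σ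
  show (if π y < π x then (σ : ℤ) else 1) * theta σ π y x =
    theta σ π x y * (if y < x then (σ : ℤ) else 1)
  unfold theta
  rcases lt_trichotomy x y with h | h | h
  · have h1 : ¬ y < x := by omega
    by_cases h2 : π y < π x
    · simp [h, h1, h2]
    · simp [h, h1, h2]
  · subst h
    simp
  · have h1 : ¬ x < y := by omega
    by_cases h2 : π x < π y
    · have h3 : ¬ π y < π x := by omega
      simp [h, h1, h2, h3]
    · have h3 : π y < π x := by
        have : π x ≠ π y := fun h' => by
          have := π.injective h'
          omega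
        omega
      simp [h, h1, h2, h3]

private theorem base_perm (N : ℕ) (σ : ℤˣ) (π : Equiv.Perm ℕ) (hπ : ∀ c, c < N ↔ π c < N)
    (k : Kind) (η : ℕ → ℤ) (hη : ∀ x, η x * η x = 1) (F G : List ℕ → ℤ)
    (h : ∀ l', F (l'.map π) = (l'.map η).prod * chi σ π l' * G l') (l : List ℕ) :
    base (colM N σ) k F (l.map π) = (l.map η).prod * chi σ π l * base (colM N σ) k G l := by
  cases k with
  | cup =>
    show ∑ c ∈ Finset.range N, F (c :: c :: l.map π) =
      (l.map η).prod * chi σ π l * ∑ c ∈ Finset.range N, G (c :: c :: l)
    have e1 : ∑ c ∈ Finset.range N, F (c :: c :: l.map π) =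
        ∑ c ∈ Finset.range N, F (π c :: π c :: l.map π) := by
      symm
      refine Finset.sum_equiv π (fun c => ?_) (fun c _ => rfl)
      rw [Finset.mem_range, Finset.mem_range]
      exact hπ c
    rw [e1, Finset.mul_sum]
    refine Finset.sum_congr rfl fun c _ => ?_
    have h1 := h (c :: c :: l)
    rw [chi_two] at h1
    simp only [List.map_cons, List.prod_cons] at h1
    rw [h1]
    calc η c * (η c * (l.map η).prod) * chi σ π l * G (c :: c :: l)
        = (η c * η c) * ((l.map η).prod * chi σ π l * G (c :: c :: l)) := by ring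
      _ = _ := by rw [hη]; ring
  | cap =>
    match l with
    | [] => simp [base]
    | [x] => simp [base]
    | x :: y :: l =>
      simp only [List.map_cons, base]
      by_cases hxy : x = y
      · subst hxy
        rw [if_pos rfl, if_pos rfl, h l, chi_two]
        simp only [List.prod_cons]
        calc (l.map η).prod * chi σ π l * G l
            = 1 * ((l.map η).prod * chi σ π l * G l) := by ring
          _ = (η x * η x) * ((l.map η).prod * chi σ π l * G l) := by rw [hη]
          _ = _ := by ring
      · rw [if_neg hxy, if_neg (fun h' => hxy (π.injective h'))]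
        ring
  | cr s =>
    match l with
    | [] => cases s <;> simp [base]
    | [x] => cases s <;> simp [base]
    | x :: y :: l =>
      have h1 := h (y :: x :: l)
      simp only [List.map_cons, List.prod_cons, chi] at h1
      cases s with
      | true =>
        show (colM N σ).wt (π x) (π y) * F (π y :: π x :: l.map π) =
          ((x :: y :: l).map η).prod * chi σ π (x :: y :: l) *
            ((colM N σ).wt x y * G (y :: x :: l))
        have h2 := wt_theta N σ π x y
        simp only [List.map_cons, List.prod_cons, chi]
        rw [h1]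
        linear_combination (η x * η y * (l.map η).prod * (l.map (theta σ π y)).prod *
          (l.map (theta σ π x)).prod * chi σ π l * G (y :: x :: l)) * h2
      | false =>
        show (colM N σ).wt (π y) (π x) * F (π y :: π x :: l.map π) =
          ((x :: y :: l).map η).prod * chi σ π (x :: y :: l) *
            ((colM N σ).wt y x * G (y :: x :: l))
        have h2 := wt_theta' N σ π x y
        simp only [List.map_cons, List.prod_cons, chi]
        rw [h1]
        linear_combination (η x * η y * (l.map η).prod * (l.map (theta σ π y)).prod *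
          (l.map (theta σ π x)).prod * chi σ π l * G (y :: x :: l)) * h2

theorem op_perm (N : ℕ) (σ : ℤˣ) (π : Equiv.Perm ℕ) (hπ : ∀ c, c < N ↔ π c < N) (k : Kind)
    (i : ℕ) (η : ℕ → ℤ) (hη : ∀ x, η x * η x = 1) (F G : List ℕ → ℤ)
    (h : ∀ l', F (l'.map π) = (l'.map η).prod * chi σ π l' * G l') (l : List ℕ) :
    op (colM N σ) k i F (l.map π) = (l.map η).prod * chi σ π l * op (colM N σ) k i G l := by
  induction i generalizing η F G l with
  | zero => exact base_perm N σ π hπ k η hη F G h l
  | succ i ih =>
    match l with
    | [] => simp [op]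
    | x :: l =>
      have h1 := ih (fun y => η y * theta σ π x y)
        (fun y => by
          have h2 := hη y
          have h3 := theta_sq σ π x y
          calc η y * theta σ π x y * (η y * theta σ π x y)
              = (η y * η y) * (theta σ π x y * theta σ π x y) := by ring
            _ = 1 := by rw [h2, h3]; norm_num)
        (fun l' => F (π x :: l')) (fun l' => η x * G (x :: l'))
        (fun l' => by
          have h2 := h (x :: l')
          simp only [List.map_cons, List.prod_cons, chi] at h2
          show F (π x :: l'.map π) = _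
          rw [h2, List.prod_map_mul]
          ring) l
      show op (colM N σ) k i (fun l' => F (π x :: l')) (l.map π) = _ *
        op (colM N σ) k i (fun l' => G (x :: l')) l
      rw [h1, op_smul, List.prod_map_mul]
      simp only [List.map_cons, List.prod_cons, chi]
      ring

theorem ev_perm (N : ℕ) (σ : ℤˣ) (π : Equiv.Perm ℕ) (hπ : ∀ c, c < N ↔ π c < N) (w : Word)
    (l : List ℕ) :
    ev (colM N σ) w top (l.map π) = chi σ π l * ev (colM N σ) w top l := by
  induction w generalizing l with
  | nil =>
    cases l with
    | nil => simp [ev, top, chi]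
    | cons a l => simp [ev, top]
  | cons p w ih =>
    obtain ⟨k, i⟩ := p
    show op (colM N σ) k i (ev (colM N σ) w top) (l.map π) =
      chi σ π l * op (colM N σ) k i (ev (colM N σ) w top) l
    have h := op_perm N σ π hπ k i (fun _ => 1) (fun _ => by norm_num) (ev (colM N σ) w top)
      (ev (colM N σ) w top) (fun l' => by rw [ih l']; simp) l
    rw [h]
    simp

theorem ev_new (N : ℕ) (σ : ℤˣ) (w : Word) (m c : ℕ) (hc : m ≤ c) (hN : c < N) (l : List ℕ)
    (hl : ∀ x ∈ l, x ≤ m) :
    ev (colM N σ) w top (l.map (Equiv.swap m c)) = ev (colM N σ) w top l := by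
  have hπ : ∀ x, x < N ↔ Equiv.swap m c x < N := by
    intro x
    by_cases h1 : x = m
    · subst h1
      rw [Equiv.swap_apply_left]
      omega
    · by_cases h2 : x = c
      · subst h2
        rw [Equiv.swap_apply_right]
        omega
      · rw [Equiv.swap_apply_of_ne_of_ne h1 h2]
  rw [ev_perm N σ (Equiv.swap m c) hπ]
  have hθ : ∀ x y, x ≤ m → y ≤ m → theta σ (Equiv.swap m c) x y = 1 := by
    intro x y hx hy
    unfold theta
    rw [if_neg]
    rintro ⟨h1, h2⟩
    have h3 : x < m := by omega
    rw [Equiv.swap_apply_of_ne_of_ne (a := m) (b := c) (x := x) (by omega) (by omega)] at h2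
    by_cases h4 : y = m
    · subst h4
      rw [Equiv.swap_apply_left] at h2
      omega
    · rw [Equiv.swap_apply_of_ne_of_ne (a := m) (b := c) (x := y) h4 (by omega)] at h2
      omega
  have hchi : ∀ l : List ℕ, (∀ x ∈ l, x ≤ m) → chi σ (Equiv.swap m c) l = 1 := by
    intro l
    induction l with
    | nil => intro _; rfl
    | cons a l ih =>
      intro hl
      have h1 : (l.map (theta σ (Equiv.swap m c) a)).prod = 1 := by
        apply List.prod_eq_one
        intro z hz
        rw [List.mem_map] at hz
        obtain ⟨y, hy, rfl⟩ := hz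
        exact hθ a y (hl a (by simp)) (hl y (by simp [hy]))
      simp only [chi]
      rw [h1, ih (fun x hx => hl x (by simp [hx]))]
      norm_num
  rw [hchi l hl, one_mul]

end Pool.Agent.Lib.Skein
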