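import Pool.Agent.Lib.Skein.Perm

set_option autoImplicit false

/-!
# Pol : the sum over colourings is a polynomial in the number of colours (about 150 lines)

`exists_pol`: induction on the word, `l` and `m` general. `[]`: `α = 1` or `0`, `β = 0`.
* A layer which is not a cup (`op_other`): `op k i F l` is `0`, or `F l'`, or `σ F l'` for a list `l'` with entries among
  those of `l`, the same for all `N`, `σ`, `F`. (Induction on `i`.) Then `(α, β)` becomes `(0, 0)`, `(α, β)`, `(β, α)`
  (`σ (α + σ β) = β + σ α`).
* A cup (`op_cup`): `op cup i F l = ∑_{c < N} F (ins i c l)` if `i ≤ l.length`, else `0`. For `N ≥ m` split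
  `∑_{c < N} = ∑_{c < m} + ∑_{m ≤ c < N}`; the terms of the second sum are all equal to the one with `c = m`: for
  `l` with entries `< m`, `ins i c l = (ins i m l).map (swap m c)` and `ev_new`. So
  `α = ∑_{c < m} α_c + (X - m) α_new`, where `α_c` is for `ins i c l` (entries `< m`) and `α_new` for `ins i m l` (entries
  `< m + 1`; known for `N ≥ m + 1`; for `N = m` the factor is 0).
`pol_ext`: a polynomial over `ℤ` vanishing at all naturals is zero (`Polynomial.eq_of_infinite_eval_eq`).
-/

noncomputable section

namespace Pool.Agent.Lib.Skein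

open Polynomial

/-- insert `c, c` at position `i` -/
def ins (i c : ℕ) (l : List ℕ) : List ℕ := l.take i ++ c :: c :: l.drop i

theorem op_cup (N : ℕ) (σ : ℤˣ) (i : ℕ) (F : List ℕ → ℤ) (l : List ℕ) :
    op (colM N σ) .cup i F l =
      if i ≤ l.length then ∑ c ∈ Finset.range N, F (ins i c l) else 0 := by
  induction i generalizing F l with
  | zero =>
    rw [op, base, if_pos (Nat.zero_le _)]
    rfl
  | succ i ih =>
    cases l with
    | nil =>
      rw [op, if_neg (by simp)]
    | cons x l =>
      rw [op, ih]
      simp only [List.length_cons, Nat.add_le_add_iff_right]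
      rfl

theorem op_other (k : Kind) (hk : k ≠ .cup) (i : ℕ) (l : List ℕ) :
    (∀ N σ F, op (colM N σ) k i F l = 0) ∨ ∃ l' : List ℕ, (∀ x ∈ l', x ∈ l) ∧
      ((∀ N σ F, op (colM N σ) k i F l = F l') ∨
        (∀ N (σ : ℤˣ) F, op (colM N σ) k i F l = (σ : ℤ) * F l')) := by
  induction i generalizing l with
  | zero =>
    cases k with
    | cup => exact absurd rfl hk
    | cap =>
      rcases l with _ | ⟨x, _ | ⟨y, l⟩⟩
      · left; intro N σ F; rfl
      · left; intro N σ F; rfl
      · by_cases h : x = y
        · right
          refine ⟨l, fun z hz => List.mem_cons_of_mem _ (List.mem_cons_of_mem _ hz), Or.inl ?_⟩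
          intro N σ F
          rw [op, base, if_pos h]
        · left
          intro N σ F
          rw [op, base, if_neg h]
    | cr s =>
      rcases l with _ | ⟨x, _ | ⟨y, l⟩⟩
      · left; intro N σ F; cases s <;> rfl
      · left; intro N σ F; cases s <;> rfl
      · right
        refine ⟨y :: x :: l, ?_, ?_⟩
        · intro z hz
          simp only [List.mem_cons] at hz ⊢
          tauto
        · cases s with
          | true =>
            by_cases h : x < y
            · right
              intro N σ F
              rw [op, base]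
              simp only [colM, if_pos h]
            · left
              intro N σ F
              rw [op, base]
              simp only [colM, if_neg h, one_mul]
          | false =>
            by_cases h : y < x
            · right
              intro N σ F
              rw [op, base]
              simp only [colM, if_pos h]
            · left
              intro N σ F
              rw [op, base]
              simp only [colM, if_neg h, one_mul]
  | succ i ih =>
    cases l with
    | nil => left; intro N σ F; rfl
    | cons x l =>
      rcases ih l with h | ⟨l', h1, h2⟩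
      · left; intro N σ F; rw [op]; exact h N σ _
      · right
        refine ⟨x :: l', ?_, ?_⟩
        · intro z hz
          rcases List.mem_cons.1 hz with rfl | hz
          · exact List.mem_cons_self
          · exact List.mem_cons_of_mem _ (h1 z hz)
        · rcases h2 with h2 | h2
          · left; intro N σ F; rw [op]; exact h2 N σ _
          · right; intro N σ F; rw [op]; exact h2 N σ _

private theorem pol_mem_ins {i c : ℕ} {l : List ℕ} {x : ℕ} (h : x ∈ ins i c l) : x = c ∨ x ∈ l := by
  unfold ins at h
  rcases List.mem_append.1 h with h | h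
  · exact Or.inr (List.mem_of_mem_take h)
  · rcases List.mem_cons.1 h with h | h
    · exact Or.inl h
    · rcases List.mem_cons.1 h with h | h
      · exact Or.inl h
      · exact Or.inr (List.mem_of_mem_drop h)

private theorem pol_map_ins {i c m : ℕ} {l : List ℕ} (hc : m ≤ c) (hl : ∀ x ∈ l, x < m) :
    (ins i m l).map (Equiv.swap m c) = ins i c l := by
  have h1 : ∀ l' : List ℕ, (∀ x ∈ l', x < m) → l'.map (Equiv.swap m c) = l' := by
    intro l' h'
    refine (List.map_congr_left (g := id) fun x hx => ?_).trans (List.map_id _)
    have := h' x hx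
    exact Equiv.swap_apply_of_ne_of_ne (by omega) (by omega)
  unfold ins
  rw [List.map_append, List.map_cons, List.map_cons, Equiv.swap_apply_left,
    h1 _ (fun x hx => hl x (List.mem_of_mem_take hx)),
    h1 _ (fun x hx => hl x (List.mem_of_mem_drop hx))]

theorem exists_pol (w : Word) (l : List ℕ) (m : ℕ) (hl : ∀ x ∈ l, x < m) :
    ∃ α β : ℤ[X], ∀ N : ℕ, m ≤ N → ∀ σ : ℤˣ,
      ev (colM N σ) w top l = α.eval (N : ℤ) + (σ : ℤ) * β.eval (N : ℤ) := by
  induction w generalizing l m with
  | nil =>
    refine ⟨C (top l), 0, fun N _ σ => ?_⟩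
    rw [ev]
    simp
  | cons a w ih =>
    obtain ⟨k, i⟩ := a
    by_cases hk : k = .cup
    · subst hk
      by_cases hi : i ≤ l.length
      · have h1 : ∀ c, ∃ α β : ℤ[X], c < m → ∀ N : ℕ, m ≤ N → ∀ σ : ℤˣ,
            ev (colM N σ) w top (ins i c l) = α.eval (N : ℤ) + (σ : ℤ) * β.eval (N : ℤ) := by
          intro c
          by_cases hc : c < m
          · obtain ⟨α, β, h⟩ := ih (ins i c l) m (fun x hx => by
              rcases pol_mem_ins hx with rfl | hx
              · exact hc
              · exact hl x hx)
            exact ⟨α, β, fun _ => h⟩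
          · exact ⟨0, 0, fun h => absurd h hc⟩
        choose A B hAB using h1
        obtain ⟨αn, βn, hn⟩ := ih (ins i m l) (m + 1) (fun x hx => by
          rcases pol_mem_ins hx with rfl | hx
          · exact Nat.lt_succ_self _
          · exact Nat.lt_succ_of_lt (hl x hx))
        refine ⟨∑ c ∈ Finset.range m, A c + (X - C (m : ℤ)) * αn,
          ∑ c ∈ Finset.range m, B c + (X - C (m : ℤ)) * βn, fun N hN σ => ?_⟩
        rw [ev, op_cup, if_pos hi, ← Finset.sum_range_add_sum_Ico _ hN]
        have h2 : ∑ c ∈ Finset.range m, ev (colM N σ) w top (ins i c l) =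
            ∑ c ∈ Finset.range m, ((A c).eval (N : ℤ) + (σ : ℤ) * (B c).eval (N : ℤ)) :=
          Finset.sum_congr rfl fun c hc => hAB c (Finset.mem_range.1 hc) N hN σ
        have h3 : ∑ c ∈ Finset.Ico m N, ev (colM N σ) w top (ins i c l) =
            ∑ c ∈ Finset.Ico m N, (αn.eval (N : ℤ) + (σ : ℤ) * βn.eval (N : ℤ)) := by
          refine Finset.sum_congr rfl fun c hc => ?_
          obtain ⟨hc1, hc2⟩ := Finset.mem_Ico.1 hc
          rw [← hn N (by omega) σ, ← ev_new N σ w m c hc1 hc2 (ins i m l) (fun x hx => by
            rcases pol_mem_ins hx with rfl | hx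
            · exact le_rfl
            · exact (hl x hx).le), pol_map_ins hc1 hl]
        rw [h2, h3, Finset.sum_const, Nat.card_Ico, nsmul_eq_mul, Nat.cast_sub hN,
          Finset.sum_add_distrib, ← Finset.mul_sum]
        simp only [eval_add, eval_mul, eval_sub, eval_X, eval_C, eval_finsetSum]
        ring
      · refine ⟨0, 0, fun N hN σ => ?_⟩
        rw [ev, op_cup, if_neg hi]
        simp
    · rcases op_other k hk i l with h | ⟨l', h1, h | h⟩
      · refine ⟨0, 0, fun N hN σ => ?_⟩
        rw [ev, h]
        simp
      · obtain ⟨α, β, h2⟩ := ih l' m (fun x hx => hl x (h1 x hx))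
        refine ⟨α, β, fun N hN σ => ?_⟩
        rw [ev, h, h2 N hN σ]
      · obtain ⟨α, β, h2⟩ := ih l' m (fun x hx => hl x (h1 x hx))
        refine ⟨β, α, fun N hN σ => ?_⟩
        rw [ev, h, h2 N hN σ]
        have h3 : (σ : ℤ) * (σ : ℤ) = 1 := by
          simp
        linear_combination (β.eval (N : ℤ)) * h3

theorem pol_ext (p q : ℤ[X]) (h : ∀ N : ℕ, p.eval (N : ℤ) = q.eval (N : ℤ)) : p = q := by
  rw [← sub_eq_zero]
  refine Polynomial.eq_zero_of_infinite_isRoot _ ?_
  refine Set.Infinite.mono (s := Set.range (fun n : ℕ => (n : ℤ))) ?_ ?_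
  · rintro _ ⟨n, rfl⟩
    simp only [Set.mem_ofPred_eq, IsRoot.def, eval_sub, h n, sub_self]
  · exact Set.infinite_range_of_injective Nat.cast_injective

end Pool.Agent.Lib.Skein
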