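import Pool.Agent.Lib.Skein.Pol

set_option autoImplicit false

/-!
# PolRel : the two polynomials of a link diagram (about 120 lines)

`ZZ (colM N σ) w = (al w)(N) + σ (be w)(N)` for all `N` and `σ = ±1`. With `σ = 1` and `σ = -1` every relation between the
state sums gives two relations between the values of the polynomials (add and subtract, divide by 2), and
`pol_ext` gives the polynomial identities. `rel_of`: the common step.
-/

noncomputable section

namespace Pool.Agent.Lib.Skein

open Polynomial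

theorem exists_albe (w : Word) : ∃ p : ℤ[X] × ℤ[X], ∀ (N : ℕ) (σ : ℤˣ),
    ZZ (colM N σ) w = p.1.eval (N : ℤ) + (σ : ℤ) * p.2.eval (N : ℤ) := by
  obtain ⟨α, β, h⟩ := exists_pol w [] 0 (by simp)
  exact ⟨(α, β), fun N σ => h N (Nat.zero_le N) σ⟩

/-- the first polynomial of a diagram -/
def al (w : Word) : ℤ[X] := (exists_albe w).choose.1

/-- the second polynomial of a diagram -/
def be (w : Word) : ℤ[X] := (exists_albe w).choose.2

theorem al_be (w : Word) (N : ℕ) (σ : ℤˣ) :
    ZZ (colM N σ) w = (al w).eval (N : ℤ) + (σ : ℤ) * (be w).eval (N : ℤ) :=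
  (exists_albe w).choose_spec N σ

/-- if `p(N) + σ q(N) = 0` for all `N` and `σ = ±1` then `p = q = 0` -/
theorem rel_of (p q : ℤ[X])
    (h : ∀ (N : ℕ) (σ : ℤˣ), p.eval (N : ℤ) + (σ : ℤ) * q.eval (N : ℤ) = 0) : p = 0 ∧ q = 0 := by
  have h1 : ∀ N : ℕ, p.eval (N : ℤ) = 0 ∧ q.eval (N : ℤ) = 0 := by
    intro N
    have a := h N 1
    have b := h N (-1)
    simp only [Units.val_one, one_mul, Units.val_neg, neg_mul] at a b
    constructor <;> omega
  exact ⟨pol_ext p 0 fun N => by rw [(h1 N).1, eval_zero],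
    pol_ext q 0 fun N => by rw [(h1 N).2, eval_zero]⟩

theorem albe_move {r s : Word} (h : Move r s) (u v : Word) (h1 : Closed (u ++ r ++ v))
    (h2 : Closed (u ++ s ++ v)) :
    al (u ++ r ++ v) = al (u ++ s ++ v) ∧ be (u ++ r ++ v) = be (u ++ s ++ v) := by
  have h3 := rel_of (al (u ++ r ++ v) - al (u ++ s ++ v)) (be (u ++ r ++ v) - be (u ++ s ++ v)) (by
    intro N σ
    have h4 := ZZ_move (colM N σ) h u v h1 h2
    rw [al_be, al_be] at h4
    rw [eval_sub, eval_sub]
    linear_combination h4)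
  exact ⟨sub_eq_zero.1 h3.1, sub_eq_zero.1 h3.2⟩

theorem albe_curl (u v : Word) (i : ℕ) (h : Closed (u ++ [(.cup, i)] ++ v)) :
    al (u ++ [(.cup, i), (.cr false, i)] ++ v) = al (u ++ [(.cup, i)] ++ v) ∧
      be (u ++ [(.cup, i), (.cr false, i)] ++ v) = be (u ++ [(.cup, i)] ++ v) := by
  have h3 := rel_of (al (u ++ [(.cup, i), (.cr false, i)] ++ v) - al (u ++ [(.cup, i)] ++ v))
      (be (u ++ [(.cup, i), (.cr false, i)] ++ v) - be (u ++ [(.cup, i)] ++ v)) (by
    intro N σ
    have h4 := ZZ_curl (colM N σ) u v i h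
    rw [al_be, al_be] at h4
    rw [eval_sub, eval_sub]
    linear_combination h4)
  exact ⟨sub_eq_zero.1 h3.1, sub_eq_zero.1 h3.2⟩

theorem albe_triv (n : ℕ) : al (triv n) = X ^ n ∧ be (triv n) = 0 := by
  have h3 := rel_of (al (triv n) - X ^ n) (be (triv n)) (by
    intro N σ
    have h4 := col_triv N σ n
    rw [al_be] at h4
    rw [eval_sub, eval_pow, eval_X]
    linear_combination h4)
  exact ⟨sub_eq_zero.1 h3.1, h3.2⟩

theorem albe_skein (u v : Word) (i : ℕ) (h : Closed (u ++ [(.cr true, i)] ++ v)) :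
    -al (u ++ v) - be (u ++ [(.cr true, i)] ++ v) +
        be (u ++ [(.cr true, i), (.cr true, i)] ++ v) +
        al (u ++ [(.cr true, i), (.cr true, i), (.cr true, i)] ++ v) = 0 ∧
      -be (u ++ v) - al (u ++ [(.cr true, i)] ++ v) +
        al (u ++ [(.cr true, i), (.cr true, i)] ++ v) +
        be (u ++ [(.cr true, i), (.cr true, i), (.cr true, i)] ++ v) = 0 := by
  refine rel_of _ _ ?_
  intro N σ
  have h4 := col_skein N σ u v i h
  rw [al_be, al_be, al_be, al_be] at h4
  have hs : (σ : ℤ) * (σ : ℤ) = 1 := Int.units_coe_mul_self σ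
  simp only [eval_add, eval_sub, eval_neg]
  linear_combination h4 +
    ((be (u ++ [(.cr true, i)] ++ v)).eval (N : ℤ) -
      (be (u ++ [(.cr true, i), (.cr true, i)] ++ v)).eval (N : ℤ)) * hs

theorem albe_one (u v : Word) (i : ℕ) (h : Closed (u ++ [(.cr true, i)] ++ v)) :
    al (u ++ [(.cr true, i), (.cr true, i)] ++ v) +
        be (u ++ [(.cr true, i), (.cr true, i)] ++ v) = al (u ++ v) + be (u ++ v) ∧
      al (u ++ [(.cr true, i), (.cr true, i), (.cr true, i)] ++ v) +
        be (u ++ [(.cr true, i), (.cr true, i), (.cr true, i)] ++ v) =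
        al (u ++ [(.cr true, i)] ++ v) + be (u ++ [(.cr true, i)] ++ v) := by
  constructor
  · refine pol_ext _ _ fun N => ?_
    have h4 := (col_one N u v i h).1
    rw [al_be, al_be] at h4
    simp only [Units.val_one, one_mul] at h4
    rw [eval_add, eval_add]
    exact h4
  · refine pol_ext _ _ fun N => ?_
    have h4 := (col_one N u v i h).2
    rw [al_be, al_be] at h4
    simp only [Units.val_one, one_mul] at h4
    rw [eval_add, eval_add]
    exact h4

end Pool.Agent.Lib.Skein
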